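import Pool.Agent.W432.TC.Equi

set_option autoImplicit false

namespace Pool.Agent.W432.TC

variable {I : Type*} [Fintype I] [DecidableEq I]

/-- The real points of the coset attached to a group of relations `L` and a rational point `x₀`:
all `y` with `∑ i, m i * (y i - x₀ i)` integral for every `m` in `L`. -/
def InCoset (L : AddSubgroup (I → ℤ)) (x₀ : I → ℚ) (y : I → ℝ) : Prop :=
  ∀ m ∈ L, ∃ z : ℤ, ∑ i, (m i : ℝ) * (y i - x₀ i) = z

omit [DecidableEq I] in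
lemma inCoset_rat {L : AddSubgroup (I → ℤ)} {x₀ x : I → ℚ} :
    InCoset L x₀ (fun i => (x i : ℝ)) ↔
      ∀ m ∈ L, ∃ z : ℤ, ∑ i, (m i : ℚ) * (x i - x₀ i) = z := by
  unfold InCoset
  refine forall₂_congr fun m _ => exists_congr fun z => ?_
  beta_reduce
  constructor
  · intro h; exact_mod_cast h
  · intro h; exact_mod_cast h

theorem torsion_cosets (τ : I → ℤ) (W : Set (I → ℝ))
    (hW : ∀ y ∈ W, ∃ δ : ℝ, 0 < δ ∧ ∀ x : I → ℝ, (∃ z : ℤ, ∑ i, (τ i : ℝ) * x i = z) →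
      (∀ i, ∃ z : ℤ, |x i - y i - z| < δ) → x ∈ W) :
    ∃ 𝒟 : Finset (AddSubgroup (I → ℤ) × (I → ℚ)),
      (∀ C ∈ 𝒟, (∀ (d : ℤ) (m : I → ℤ), d ≠ 0 → d • m ∈ C.1 → m ∈ C.1) ∧ τ ∈ C.1 ∧
        (∃ z : ℤ, ∑ i, (τ i : ℚ) * C.2 i = z) ∧ ∀ y, InCoset C.1 C.2 y → y ∉ W) ∧
      ∀ x : I → ℚ, (∃ z : ℤ, ∑ i, (τ i : ℚ) * x i = z) →
        (∃ N : ℕ, 0 < N ∧ (∀ i, ∃ z : ℤ, (N : ℚ) * x i = z) ∧ ∀ a : ℤ, IsCoprime a (N : ℤ) →
          (fun i => (a : ℝ) * x i) ∉ W) →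
        ∃ C ∈ 𝒟, InCoset C.1 C.2 (fun i => (x i : ℝ)) := by
  classical
  by_contra hcon
  -- admissible cosets
  let 𝒯 : Set (AddSubgroup (I → ℤ) × (I → ℚ)) := {C |
    (∀ (d : ℤ) (m : I → ℤ), d ≠ 0 → d • m ∈ C.1 → m ∈ C.1) ∧ τ ∈ C.1 ∧
        (∃ z : ℤ, ∑ i, (τ i : ℚ) * C.2 i = z) ∧ ∀ y, InCoset C.1 C.2 y → y ∉ W}
  let 𝒳 : Set (I → ℚ) := {x | (∃ z : ℤ, ∑ i, (τ i : ℚ) * x i = z) ∧
        (∃ N : ℕ, 0 < N ∧ (∀ i, ∃ z : ℤ, (N : ℚ) * x i = z) ∧ ∀ a : ℤ, IsCoprime a (N : ℤ) →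
          (fun i => (a : ℝ) * x i) ∉ W)}
  let B : Finset 𝒯 → Set (I → ℚ) := fun 𝒟 =>
    {x | x ∈ 𝒳 ∧ ∀ C ∈ 𝒟, ¬ InCoset C.1.1 C.1.2 (fun i => (x i : ℝ))}
  have hB : ∀ 𝒟, (B 𝒟).Nonempty := by
    intro 𝒟
    by_contra hne
    rw [Set.not_nonempty_iff_eq_empty] at hne
    apply hcon
    refine ⟨𝒟.image Subtype.val, ?_, ?_⟩
    · intro C hC
      obtain ⟨C', -, rfl⟩ := Finset.mem_image.mp hC
      exact C'.2
    · intro x hx1 hx2
      by_contra hno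
      have : x ∈ B 𝒟 := by
        refine ⟨⟨hx1, hx2⟩, fun C hC hin => hno ⟨C.1, Finset.mem_image.mpr ⟨C, hC, rfl⟩, hin⟩⟩
      rw [hne] at this
      exact this
  have hdir : Directed (· ≥ ·) fun 𝒟 => Filter.principal (B 𝒟) := by
    intro 𝒟₁ 𝒟₂
    refine ⟨𝒟₁ ∪ 𝒟₂, ?_, ?_⟩
    · apply Filter.principal_mono.mpr
      intro x hx
      exact ⟨hx.1, fun C hC => hx.2 C (Finset.mem_union_left _ hC)⟩
    · apply Filter.principal_mono.mpr
      intro x hx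
      exact ⟨hx.1, fun C hC => hx.2 C (Finset.mem_union_right _ hC)⟩
  have hne : (⨅ 𝒟, Filter.principal (B 𝒟)).NeBot :=
    Filter.iInf_neBot_of_directed hdir fun 𝒟 => Filter.principal_neBot_iff.mpr (hB 𝒟)
  let F : Ultrafilter (I → ℚ) := Ultrafilter.of (⨅ 𝒟, Filter.principal (B 𝒟))
  have hF : ∀ 𝒟, B 𝒟 ∈ F := fun 𝒟 =>
    Ultrafilter.of_le _ (Filter.mem_iInf_of_mem 𝒟 (Filter.mem_principal_self _))
  have hX : 𝒳 ∈ F := Filter.mem_of_superset (hF ∅) fun x hx => hx.1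
  have hT : ∀ C : 𝒯, {x : I → ℚ | ¬ InCoset C.1.1 C.1.2 (fun i => (x i : ℝ))} ∈ F := fun C =>
    Filter.mem_of_superset (hF {C}) fun x hx => hx.2 C (Finset.mem_singleton_self _)
  -- a finite union of residue conditions
  have hfin : ∀ (m : I → ℤ) (d : ℕ) (c : ℚ), 0 < d →
      {x : I → ℚ | ∃ z : ℤ, (d : ℚ) * ∑ i, (m i : ℚ) * x i - c = z} ∈ F →
      ∃ c' : ℚ, {x : I → ℚ | ∃ z : ℤ, ∑ i, (m i : ℚ) * x i - c' = z} ∈ F := by
    intro m d c hd h
    have hd' : (d : ℚ) ≠ 0 := by exact_mod_cast hd.ne'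
    have hsub : {x : I → ℚ | ∃ z : ℤ, (d : ℚ) * ∑ i, (m i : ℚ) * x i - c = z} ⊆
        ⋃ r ∈ Set.Iio d, {x : I → ℚ | ∃ z : ℤ, ∑ i, (m i : ℚ) * x i - (c + r) / d = z} := by
      rintro x ⟨z, hz⟩
      have hd0 : (d : ℤ) ≠ 0 := by exact_mod_cast hd.ne'
      refine Set.mem_biUnion (x := (z % d).toNat) ?_ ?_
      · rw [Set.mem_Iio]
        have h1 := Int.emod_nonneg z hd0
        have h2 := Int.emod_lt_of_pos z (by exact_mod_cast hd : (0 : ℤ) < d)
        omega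
      · refine ⟨z / d, ?_⟩
        have h1 := Int.emod_nonneg z hd0
        have h2 : (((z % d).toNat : ℕ) : ℤ) = z % d := Int.toNat_of_nonneg h1
        have h3 : (((z % d).toNat : ℕ) : ℚ) = ((z % d : ℤ) : ℚ) := by exact_mod_cast h2
        have h4 : (z : ℚ) = d * ((z / d : ℤ) : ℚ) + ((z % d : ℤ) : ℚ) := by
          exact_mod_cast (Int.mul_ediv_add_emod z d).symm
        rw [h3]
        field_simp
        linear_combination hz + h4
    have h2 := Filter.mem_of_superset h hsub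
    rw [Ultrafilter.mem_coe, Ultrafilter.finite_biUnion_mem_iff (Set.finite_Iio d)] at h2
    obtain ⟨r, -, hr⟩ := h2
    exact ⟨_, hr⟩
  -- the relations
  let L : AddSubgroup (I → ℤ) :=
    { carrier := {m | ∃ c : ℚ, {x : I → ℚ | ∃ z : ℤ, ∑ i, (m i : ℚ) * x i - c = z} ∈ F}
      zero_mem' := ⟨0, Filter.mem_of_superset Filter.univ_mem fun x _ => ⟨0, by simp⟩⟩
      add_mem' := by
        rintro m m' ⟨c, hc⟩ ⟨c', hc'⟩
        refine ⟨c + c', Filter.mem_of_superset (Filter.inter_mem hc hc') ?_⟩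
        rintro x ⟨⟨z, hz⟩, ⟨z', hz'⟩⟩
        refine ⟨z + z', ?_⟩
        simp only [Pi.add_apply]
        push_cast
        rw [← hz, ← hz']
        simp only [add_mul, Finset.sum_add_distrib]
        ring
      neg_mem' := by
        rintro m ⟨c, hc⟩
        refine ⟨-c, Filter.mem_of_superset hc ?_⟩
        rintro x ⟨z, hz⟩
        refine ⟨-z, ?_⟩
        simp only [Pi.neg_apply]
        push_cast
        rw [← hz]
        simp only [neg_mul, Finset.sum_neg_distrib]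
        ring }
  have hLmem : ∀ m, m ∈ L ↔
      ∃ c : ℚ, {x : I → ℚ | ∃ z : ℤ, ∑ i, (m i : ℚ) * x i - c = z} ∈ F := fun m => Iff.rfl
  have hsat : ∀ (d : ℤ) (m : I → ℤ), d ≠ 0 → d • m ∈ L → m ∈ L := by
    intro d m hd hm
    have hm' : (d.natAbs : ℤ) • m ∈ L := by
      rcases Int.natAbs_eq d with h | h
      · rw [← h]; exact hm
      · have h2 : (d.natAbs : ℤ) = -d := by omega
        rw [h2, neg_smul]; exact L.neg_mem hm
    rw [hLmem] at hm'
    obtain ⟨c, hc⟩ := hm'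
    rw [hLmem]
    refine hfin m d.natAbs c (Int.natAbs_pos.mpr hd) (Filter.mem_of_superset hc ?_)
    rintro x ⟨z, hz⟩
    refine ⟨z, ?_⟩
    rw [← hz]
    simp only [Pi.smul_apply, smul_eq_mul, Int.cast_mul, Int.cast_natCast]
    rw [Finset.mul_sum]
    congr 1
    refine Finset.sum_congr rfl fun i _ => ?_
    ring
  have hτ : τ ∈ L := by
    rw [hLmem]
    refine ⟨0, Filter.mem_of_superset hX ?_⟩
    rintro x ⟨⟨z, hz⟩, -⟩
    exact ⟨z, by rw [hz, sub_zero]⟩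
  -- finitely many generators
  obtain ⟨S, hS⟩ := (isNoetherian_def.mp (inferInstance : IsNoetherian ℤ (I → ℤ)))
    (AddSubgroup.toIntSubmodule L)
  have hSL : ∀ m ∈ S, m ∈ L := by
    intro m hm
    have : m ∈ AddSubgroup.toIntSubmodule L := by
      rw [← hS]; exact Submodule.subset_span hm
    exact this
  choose! c hc using fun m (hm : m ∈ L) => (hLmem m).mp hm
  have hSF : {x : I → ℚ | ∀ m ∈ S, ∃ z : ℤ, ∑ i, (m i : ℚ) * x i - c m = z} ∈ F := by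
    have : {x : I → ℚ | ∀ m ∈ S, ∃ z : ℤ, ∑ i, (m i : ℚ) * x i - c m = z} =
        ⋂ m ∈ S, {x : I → ℚ | ∃ z : ℤ, ∑ i, (m i : ℚ) * x i - c m = z} := by
      ext x; simp
    rw [this]
    exact (Filter.biInter_finset_mem S).mpr fun m hm => hc m (hSL m hm)
  obtain ⟨x₀, hx₀X, hx₀S⟩ := F.nonempty_of_mem (Filter.inter_mem hX hSF)
  have hcos : {x : I → ℚ | InCoset L x₀ (fun i => (x i : ℝ))} ∈ F := by
    refine Filter.mem_of_superset hSF fun x hx => ?_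
    show InCoset L x₀ (fun i => (x i : ℝ))
    rw [inCoset_rat]
    intro m hm
    have hm' : m ∈ Submodule.span ℤ (S : Set (I → ℤ)) := by
      rw [hS]; exact hm
    induction hm' using Submodule.span_induction with
    | mem m hmS =>
      obtain ⟨z, hz⟩ := hx m hmS
      obtain ⟨z', hz'⟩ := hx₀S m hmS
      refine ⟨z - z', ?_⟩
      push_cast
      rw [← hz, ← hz']
      simp only [mul_sub, Finset.sum_sub_distrib]
      ring
    | zero => exact ⟨0, by simp⟩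
    | add m m' h1 h2 ih1 ih2 =>
      have e1 : m ∈ L := by rw [hS] at h1; exact h1
      have e2 : m' ∈ L := by rw [hS] at h2; exact h2
      obtain ⟨z, hz⟩ := ih1 e1
      obtain ⟨z', hz'⟩ := ih2 e2
      refine ⟨z + z', ?_⟩
      push_cast
      rw [← hz, ← hz', ← Finset.sum_add_distrib]
      refine Finset.sum_congr rfl fun i _ => ?_
      simp only [Pi.add_apply]
      push_cast
      ring
    | smul a m h1 ih1 =>
      have e1 : m ∈ L := by rw [hS] at h1; exact h1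
      obtain ⟨z, hz⟩ := ih1 e1
      refine ⟨a * z, ?_⟩
      push_cast
      rw [← hz, Finset.mul_sum]
      refine Finset.sum_congr rfl fun i _ => ?_
      simp only [Pi.smul_apply, smul_eq_mul]
      push_cast
      ring
  by_cases hdisj : ∀ y, InCoset L x₀ y → y ∉ W
  · have hmem : ((L, x₀) : AddSubgroup (I → ℤ) × (I → ℚ)) ∈ 𝒯 := ⟨hsat, hτ, hx₀X.1, hdisj⟩
    obtain ⟨x, h1, h2⟩ := F.nonempty_of_mem (Filter.inter_mem hcos (hT ⟨_, hmem⟩))
    exact h2 h1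
  · push Not at hdisj
    obtain ⟨y, hyC, hyW⟩ := hdisj
    obtain ⟨δ, hδ, hball⟩ := hW y hyW
    obtain ⟨K, Q, hKQ⟩ := equidist L x₀ y hyC δ hδ
    have hgen : {x : I → ℚ | ∀ m ∉ L, (∀ i, |m i| ≤ K) → ∀ q : ℕ, 0 < q → q ≤ Q →
        ¬ ∃ z : ℤ, (q : ℚ) * ∑ i, (m i : ℚ) * x i = z} ∈ F := by
      have hbox : (Set.univ.pi fun _ : I => Set.Icc (-(K : ℤ)) K).Finite :=
        Set.Finite.pi fun _ => Set.finite_Icc _ _
      have hsub : (⋂ m ∈ (Set.univ.pi fun _ : I => Set.Icc (-(K : ℤ)) K), ⋂ q ∈ Set.Iic Q,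
          {x : I → ℚ | m ∉ L → 0 < q → ¬ ∃ z : ℤ, (q : ℚ) * ∑ i, (m i : ℚ) * x i = z}) ⊆
          {x : I → ℚ | ∀ m ∉ L, (∀ i, |m i| ≤ K) → ∀ q : ℕ, 0 < q → q ≤ Q →
            ¬ ∃ z : ℤ, (q : ℚ) * ∑ i, (m i : ℚ) * x i = z} := by
        intro x hx m hm hmK q hq hqQ
        rw [Set.mem_iInter₂] at hx
        have h1 := hx m (fun i _ => abs_le.mp (hmK i))
        rw [Set.mem_iInter₂] at h1
        exact h1 q hqQ hm hq
      refine Filter.mem_of_superset ?_ hsub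
      refine (Filter.biInter_mem hbox).mpr fun m _ => ?_
      refine (Filter.biInter_mem (Set.finite_Iic Q)).mpr fun q _ => ?_
      by_cases hm : m ∈ L
      · exact Filter.mem_of_superset Filter.univ_mem fun x _ h => absurd hm h
      · rcases Nat.eq_zero_or_pos q with hq | hq
        · exact Filter.mem_of_superset Filter.univ_mem fun x _ _ h => absurd hq h.ne'
        · have h1 : {x : I → ℚ | ∃ z : ℤ, (q : ℚ) * ∑ i, (m i : ℚ) * x i - 0 = z} ∉ F :=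
            fun h => hm (hfin m q 0 hq h)
          have h2 := Ultrafilter.compl_mem_iff_notMem.mpr h1
          refine Filter.mem_of_superset h2 fun x hx _ _ hz => hx ?_
          obtain ⟨z, hz⟩ := hz
          exact ⟨z, by rw [sub_zero]; exact hz⟩
    obtain ⟨x, ⟨hxX, hxC⟩, hxg⟩ := F.nonempty_of_mem
      (Filter.inter_mem (Filter.inter_mem hX hcos) hgen)
    obtain ⟨N, hN, hNx, hxa⟩ := hxX.2
    obtain ⟨a, ha, hnear⟩ := hKQ x (inCoset_rat.mp hxC) hxg N hN hNx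
    refine hxa a ha (hball _ ?_ hnear)
    obtain ⟨z, hz⟩ := hxX.1
    refine ⟨a * z, ?_⟩
    have hz' : ∑ i, (τ i : ℝ) * x i = z := by
      have := congrArg (fun q : ℚ => (q : ℝ)) hz
      push_cast at this
      exact this
    push_cast
    rw [← hz', Finset.mul_sum]
    exact Finset.sum_congr rfl fun i _ => by ring

end Pool.Agent.W432.TC
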