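import Pool.Agent.W432.TC.Weyl
import Pool.Agent.W432.TC.Ultra

set_option autoImplicit false

open Polynomial Pool.Agent.W432.PC

namespace Pool.Agent.W432.TC

section neg

variable {R : Type*} [CommRing R]

lemma charpoly_neg' {r : ℕ} (M : Matrix (Fin r) (Fin r) R) :
    (-M).charpoly = (-1) ^ r * M.charpoly.comp (-X) := by
  have h1 : (-M).charmatrix = -(M.charmatrix.map (compRingHom (-X))) := by
    ext1 i j
    rw [Matrix.neg_apply, Matrix.map_apply, Matrix.charmatrix_apply, Matrix.charmatrix_apply]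
    by_cases hij : i = j
    · subst hij
      simp [add_comm]
    · simp [Matrix.diagonal_apply_ne _ hij]
  unfold Matrix.charpoly
  rw [h1, Matrix.det_neg, Fintype.card_fin]
  congr 1
  have h2 := (RingHom.map_det (compRingHom (-X : R[X])) M.charmatrix).symm
  rw [RingHom.mapMatrix_apply] at h2
  rw [h2]
  rfl

lemma hasExponents_neg_transpose [IsDomain R] {r : ℕ} {M : Matrix (Fin r) (Fin r) R}
    {lam : Fin r → ℚ} (h : HasExponents M lam) :
    HasExponents (-M.transpose) (fun l => -lam l) := by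
  unfold HasExponents at h ⊢
  rw [charpoly_neg', Matrix.charpoly_transpose, Polynomial.map_mul, Polynomial.map_comp, h]
  simp only [Polynomial.map_pow, Polynomial.map_neg, Polynomial.map_one, Polynomial.map_X]
  rw [prod_comp]
  have h1 : ((-1 : (FractionRing R)[X])) ^ r = ∏ _l : Fin r, (-1 : (FractionRing R)[X]) := by
    rw [Finset.prod_const, Finset.card_univ, Fintype.card_fin]
  rw [h1, ← Finset.prod_mul_distrib]
  refine Finset.prod_congr rfl fun l _ => ?_
  simp only [sub_comp, X_comp, C_comp]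
  push_cast
  rw [C_neg]
  ring

end neg

/-- The Weyl inequalities for real exponents `x j l` at the `n` finite points and `y l` at
infinity: for all reals `v j` and `w` with `w < ∑ j, v j`, the sum over `l` of the least numbers
`> w` congruent to `y l` modulo one is at most the sum over `j, l` of the least numbers `≥ v j`
congruent to `x j l` modulo one. -/
def Weyl {n r : ℕ} (x : Fin n → Fin r → ℝ) (y : Fin r → ℝ) : Prop :=
  ∀ (v : Fin n → ℝ) (w : ℝ), w < ∑ j, v j → ∑ l, nextGt w (y l) ≤ ∑ j, ∑ l, nextGe (v j) (x j l)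

/-- The index set of the exponents. -/
abbrev ExponentIndex (n r : ℕ) := (Fin n × Fin r) ⊕ Fin r

/-- The Weyl inequalities for a point and its negative. -/
def WeylBoth {n r : ℕ} (z : ExponentIndex n r → ℝ) : Prop :=
  Weyl (fun j l => z (Sum.inl (j, l))) (fun l => z (Sum.inr l)) ∧
    Weyl (fun j l => -z (Sum.inl (j, l))) (fun l => -z (Sum.inr l))

/-- The trace relation: the sum of the exponents at the finite points minus the sum of those at
infinity. -/
def traceRelation (n r : ℕ) : ExponentIndex n r → ℤ := Sum.elim (fun _ => 1) (fun _ => -1)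

lemma tr_sum {n r : ℕ} {K : Type*} [Ring K] (z : ExponentIndex n r → K) :
    ∑ i, (traceRelation n r i : K) * z i =
      ∑ j, ∑ l, z (Sum.inl (j, l)) - ∑ l, z (Sum.inr l) := by
  rw [Fintype.sum_sum_type, Fintype.sum_prod_type]
  simp [traceRelation, sub_eq_add_neg]

lemma nextGe_mono {v v' x x' : ℝ} (e : ℤ) (h : v' - x' ≤ v - x - e) : nextGe v' x' ≤ nextGe v x + (x' - x - e) := by
  unfold nextGe
  have h1 : ⌈v' - x'⌉ ≤ ⌈v - x⌉ - e := by
    rw [← Int.ceil_sub_intCast]
    exact Int.ceil_le_ceil h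
  have h2 : (⌈v' - x'⌉ : ℝ) ≤ ⌈v - x⌉ - e := by exact_mod_cast h1
  linarith

lemma nextGt_mono {w w' y y' : ℝ} (e : ℤ) (h : w - y - e ≤ w' - y') :
    nextGt w y + (y' - y - e) ≤ nextGt w' y' := by
  unfold nextGt
  have h1 : ⌊w - y⌋ - e ≤ ⌊w' - y'⌋ := by
    rw [← Int.floor_sub_intCast]
    exact Int.floor_le_floor h
  have h2 : (⌊w - y⌋ - e : ℝ) ≤ ⌊w' - y'⌋ := by exact_mod_cast h1
  linarith

/-- Violations are stable. -/
lemma weyl_open {n r : ℕ} (x : Fin n → Fin r → ℝ) (y : Fin r → ℝ)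
    (hint : ∃ z : ℤ, ∑ j, ∑ l, x j l - ∑ l, y l = z) (h : ¬ Weyl x y) :
    ∃ δ : ℝ, 0 < δ ∧ ∀ (x' : Fin n → Fin r → ℝ) (y' : Fin r → ℝ),
      (∀ j l, ∃ z : ℤ, |x' j l - x j l - z| < δ) → (∀ l, ∃ z : ℤ, |y' l - y l - z| < δ) →
        ¬ Weyl x' y' := by
  unfold Weyl at h
  push Not at h
  obtain ⟨v, w, hvw, hlt⟩ := h
  -- the gap is at least one
  have hgap : ∑ j, ∑ l, nextGe (v j) (x j l) + 1 ≤ ∑ l, nextGt w (y l) := by
    obtain ⟨D, hD⟩ := hint
    have h1 : ∑ j, ∑ l, nextGe (v j) (x j l) =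
        ((∑ j, ∑ l, ⌈v j - x j l⌉ : ℤ) : ℝ) + ∑ j, ∑ l, x j l := by
      simp only [nextGe]; push_cast; simp only [Finset.sum_add_distrib]
    have h2 : ∑ l, nextGt w (y l) = ((∑ l, (⌊w - y l⌋ + 1) : ℤ) : ℝ) + ∑ l, y l := by
      simp only [nextGt]; push_cast; simp only [Finset.sum_add_distrib]
    have h3 : ((∑ j, ∑ l, ⌈v j - x j l⌉ + D : ℤ) : ℝ) < ((∑ l, (⌊w - y l⌋ + 1) : ℤ) : ℝ) := by
      rw [h1, h2] at hlt
      rw [Int.cast_add, ← hD]
      linarith
    have h4 : ∑ j, ∑ l, ⌈v j - x j l⌉ + D + 1 ≤ ∑ l, (⌊w - y l⌋ + 1) := by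
      exact_mod_cast h3
    have h5 : ((∑ j, ∑ l, ⌈v j - x j l⌉ + D + 1 : ℤ) : ℝ) ≤ ((∑ l, (⌊w - y l⌋ + 1) : ℤ) : ℝ) := by
      exact_mod_cast h4
    rw [h1, h2]
    rw [Int.cast_add, Int.cast_add, ← hD] at h5
    push_cast at h5 ⊢
    linarith
  set M : ℝ := (n + 1) * (r + 1) with hM
  have hM0 : 0 < M := by positivity
  set ε : ℝ := ∑ j, v j - w with hε
  have hε0 : 0 < ε := by rw [hε]; linarith
  refine ⟨min (ε / (2 * M)) (1 / (2 * M)), by positivity, fun x' y' hx hy hW => ?_⟩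
  set δ := min (ε / (2 * M)) (1 / (2 * M)) with hδ
  have hδ0 : 0 < δ := by positivity
  have hδ1 : δ * M ≤ ε / 2 := by
    have : δ ≤ ε / (2 * M) := min_le_left _ _
    calc δ * M ≤ ε / (2 * M) * M := by gcongr
      _ = ε / 2 := by field_simp
  have hδ2 : δ * M ≤ 1 / 2 := by
    have : δ ≤ 1 / (2 * M) := min_le_right _ _
    calc δ * M ≤ 1 / (2 * M) * M := by gcongr
      _ = 1 / 2 := by field_simp
  choose e he using hx
  choose e' he' using hy
  have hn0 : (0 : ℝ) ≤ n := Nat.cast_nonneg _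
  have hr0 : (0 : ℝ) ≤ r := Nat.cast_nonneg _
  have h1 := hW (fun j => v j - δ) (w + δ) (by
    rw [Finset.sum_sub_distrib, Finset.sum_const, Finset.card_univ, Fintype.card_fin, nsmul_eq_mul]
    have : (n + 1) * δ ≤ δ * M := by rw [hM]; nlinarith [mul_nonneg (mul_nonneg hn0 hr0) hδ0.le]
    have h3 : w + ε = ∑ j, v j := by rw [hε]; ring
    linarith)
  have h2 : ∑ j, ∑ l, nextGe (v j - δ) (x' j l) ≤ ∑ j, ∑ l, (nextGe (v j) (x j l) + δ) := by
    refine Finset.sum_le_sum fun j _ => Finset.sum_le_sum fun l _ => ?_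
    have h4 := abs_lt.mp (he j l)
    have h5 := nextGe_mono (v := v j) (v' := v j - δ) (x := x j l) (x' := x' j l) (e j l) (by linarith)
    linarith
  have h3 : ∑ l, (nextGt w (y l) - δ) ≤ ∑ l, nextGt (w + δ) (y' l) := by
    refine Finset.sum_le_sum fun l _ => ?_
    have h4 := abs_lt.mp (he' l)
    have h5 := nextGt_mono (w := w) (w' := w + δ) (y := y l) (y' := y' l) (e' l) (by linarith)
    linarith
  simp only [Finset.sum_add_distrib, Finset.sum_sub_distrib, Finset.sum_const, Finset.card_univ,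
    Fintype.card_fin, nsmul_eq_mul] at h2 h3
  have h6 : (n : ℝ) * (r * δ) + r * δ < 1 := by
    have : (n : ℝ) * (r * δ) + r * δ ≤ δ * M := by rw [hM]; nlinarith
    linarith
  linarith

/-- A point violating the inequalities. -/
lemma exists_violation (n r : ℕ) (hn : 1 ≤ n) (hr : 2 ≤ r) :
    ∃ z : ExponentIndex n r → ℝ, ∑ i, (traceRelation n r i : ℝ) * z i = 0 ∧ ¬ WeylBoth z := by
  have hn' : (1 : ℝ) ≤ n := by exact_mod_cast hn
  have hr' : (2 : ℝ) ≤ r := by exact_mod_cast hr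
  let l₀ : Fin r := ⟨0, by omega⟩
  let y : Fin r → ℝ := fun l => if l = l₀ then 1 / 2 - (r - 1) / (4 * r) else 1 / 2 + 1 / (4 * r)
  have hysum : ∑ l, y l = r / 2 := by
    have h1 : ∀ l, y l = (1 / 2 + 1 / (4 * r)) + if l = l₀ then -(1 / 4 : ℝ) else 0 := by
      intro l
      simp only [y]
      split_ifs
      · field_simp; ring
      · ring
    rw [Finset.sum_congr rfl fun l _ => h1 l, Finset.sum_add_distrib, Finset.sum_const,
      Finset.card_univ, Fintype.card_fin, nsmul_eq_mul, Finset.sum_ite_eq', if_pos (Finset.mem_univ _)]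
    field_simp
    ring
  refine ⟨Sum.elim (fun _ => 1 / (2 * n)) y, ?_, ?_⟩
  · rw [tr_sum]
    simp only [Sum.elim_inl, Sum.elim_inr, Finset.sum_const, Finset.card_univ, Fintype.card_fin,
      nsmul_eq_mul, hysum]
    field_simp
    ring
  · rintro ⟨h, -⟩
    have h1 := h (fun _ => 1 / (2 * n)) (y l₀) (by
      simp only [Finset.sum_const, Finset.card_univ, Fintype.card_fin, nsmul_eq_mul, y, if_true]
      have h2 : (n : ℝ) * (1 / (2 * n)) = 1 / 2 := by field_simp
      rw [h2]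
      have h3 : 0 < ((r : ℝ) - 1) / (4 * r) := by
        apply div_pos <;> linarith
      linarith)
    simp only [Sum.elim_inl, Sum.elim_inr] at h1
    have h2 : nextGe (1 / (2 * (n : ℝ))) (1 / (2 * n)) = 1 / (2 * n) := by
      unfold nextGe; simp
    simp only [h2, Finset.sum_const, Finset.card_univ, Fintype.card_fin, nsmul_eq_mul] at h1
    have h3 : ∀ l, nextGt (y l₀) (y l) = y l + if l = l₀ then 1 else 0 := by
      intro l
      unfold nextGt
      split_ifs with hl
      · rw [hl]; simp; ring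
      · have h4 : y l₀ - y l = -(1 / 4) := by
          simp only [y, if_true, if_neg hl]
          field_simp
          ring
        rw [h4]
        have h5 : ⌊(-(1 / 4) : ℝ)⌋ = -1 := by
          rw [Int.floor_eq_iff]; norm_num
        rw [h5]; push_cast; ring
    rw [Finset.sum_congr rfl fun l _ => h3 l, Finset.sum_add_distrib, hysum,
      Finset.sum_ite_eq', if_pos (Finset.mem_univ _)] at h1
    have h4 : (n : ℝ) * (r * (1 / (2 * n))) = r / 2 := by field_simp
    rw [h4] at h1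
    linarith

universe u

/-- If the exponents, multiplied by an integer `a`, violate the Weyl inequalities, then the
`p`-curvature is nonzero at all closed points of large characteristic in a residue class. -/
theorem exists_bad {R : Type u} [CommRing R] [IsDomain R] [CharZero R] {n r : ℕ} (α : Fin n → R)
    (hα : ∀ i j, i ≠ j → IsUnit (α i - α j)) (A : Fin n → Matrix (Fin r) (Fin r) R)
    (lam : Fin n → Fin r → ℚ) (phi : Fin r → ℚ)
    (hlam : ∀ j, HasExponents (A j) (lam j)) (hphi : HasExponents (∑ j, A j) phi)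
    (N : ℕ) (hN : 0 < N) (h1 : ∀ j l, ∃ m : ℤ, (N : ℚ) * lam j l = m)
    (h2 : ∀ l, ∃ m : ℤ, (N : ℚ) * phi l = m) (a : ℤ)
    (hbad : ¬ WeylBoth (fun i => (a : ℝ) * (Sum.elim (fun p => lam p.1 p.2) phi : ExponentIndex n r → ℚ) i)) :
    ∃ P₀ : ℕ, ∀ p : ℕ, p.Prime → P₀ < p → (N : ℤ) ∣ a * p + 1 →
      ∀ (𝔪 : Ideal R) [𝔪.IsMaximal], (p : R) ∈ 𝔪 → ¬ PCurvZeroAt α A 𝔪 := by
  unfold WeylBoth at hbad
  rw [not_and_or] at hbad
  rcases hbad with hbad | hbad
  · unfold Weyl at hbad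
    push Not at hbad
    obtain ⟨v, w, hvw, hlt⟩ := hbad
    exact weyl_next α hα A A (Or.inl rfl) lam phi hlam hphi N hN h1 h2 a v w hvw hlt
  · unfold Weyl at hbad
    push Not at hbad
    obtain ⟨v, w, hvw, hlt⟩ := hbad
    have h3 : HasExponents (∑ j, -(A j).transpose) (fun l => -phi l) := by
      have h4 : ∑ j, -(A j).transpose = -(∑ j, A j).transpose := by
        rw [Matrix.transpose_sum, Finset.sum_neg_distrib]
      rw [h4]
      exact hasExponents_neg_transpose hphi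
    refine weyl_next α hα A (fun j => -(A j).transpose) (Or.inr rfl)
      (fun j l => -lam j l) (fun l => -phi l) (fun j => hasExponents_neg_transpose (hlam j)) h3
      N hN (fun j l => by obtain ⟨m, hm⟩ := h1 j l; exact ⟨-m, by push_cast; rw [← hm]; ring⟩)
      (fun l => by obtain ⟨m, hm⟩ := h2 l; exact ⟨-m, by push_cast; rw [← hm]; ring⟩) a v w hvw ?_
    simp only [Sum.elim_inl, Sum.elim_inr] at hlt
    push_cast
    simp only [mul_neg]
    exact hlt

theorem final (n r : ℕ) (hn : 1 ≤ n) (hr : 2 ≤ r) :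
    ∃ 𝒟 : Finset (AddSubgroup (ExponentIndex n r → ℤ) × (ExponentIndex n r → ℚ)),
      (∀ C ∈ 𝒟, (∀ (d : ℤ) (m : ExponentIndex n r → ℤ), d ≠ 0 → d • m ∈ C.1 → m ∈ C.1) ∧
        (∃ m ∈ C.1, ∀ d : ℤ, m ≠ d • traceRelation n r) ∧ ∀ z, InCoset C.1 C.2 z → WeylBoth z) ∧
      ∀ (R : Type u) [CommRing R] [IsDomain R] [CharZero R] [Algebra.FiniteType ℤ R]
        (α : Fin n → R) (A : Fin n → Matrix (Fin r) (Fin r) R)
        (lam : Fin n → Fin r → ℚ) (phi : Fin r → ℚ) (N : ℕ),
        (∀ i j, i ≠ j → IsUnit (α i - α j)) →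
        (∀ j, HasExponents (A j) (lam j)) → HasExponents (∑ j, A j) phi →
        0 < N → (∀ j l, ∃ m : ℤ, (N : ℚ) * lam j l = m) → (∀ l, ∃ m : ℤ, (N : ℚ) * phi l = m) →
        (∃ C ∈ 𝒟, InCoset C.1 C.2 (fun i => ((Sum.elim (fun p => lam p.1 p.2) phi i : ℚ) : ℝ))) ∨
          ((∃ a : ℤ, IsCoprime a (N : ℤ) ∧ ∃ P₀ : ℕ, ∀ p : ℕ, p.Prime → P₀ < p →
            (N : ℤ) ∣ a * p + 1 → ∀ (𝔪 : Ideal R) [𝔪.IsMaximal], (p : R) ∈ 𝔪 →
              ¬ PCurvZeroAt α A 𝔪) ∧ ¬ CondII α A) := by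
  classical
  obtain ⟨𝒟, h𝒟, hcov⟩ := torsion_cosets (traceRelation n r)
    {z : ExponentIndex n r → ℝ | (∃ e : ℤ, ∑ i, (traceRelation n r i : ℝ) * z i = e) ∧ ¬ WeylBoth z} (by
    rintro z ⟨⟨e, he⟩, hz⟩
    rw [tr_sum] at he
    unfold WeylBoth at hz
    rw [not_and_or] at hz
    rcases hz with hz | hz
    · obtain ⟨δ, hδ, h⟩ := weyl_open _ _ ⟨e, he⟩ hz
      refine ⟨δ, hδ, fun x hx hnear => ⟨hx, fun hW => ?_⟩⟩
      exact h _ _ (fun j l => hnear _) (fun l => hnear _) hW.1
    · obtain ⟨δ, hδ, h⟩ := weyl_open _ _ ⟨-e, by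
        simp only [Finset.sum_neg_distrib]; push_cast; rw [← he]; ring⟩ hz
      refine ⟨δ, hδ, fun x hx hnear => ⟨hx, fun hW => ?_⟩⟩
      refine h _ _ (fun j l => ?_) (fun l => ?_) hW.2
      · obtain ⟨z', hz'⟩ := hnear (Sum.inl (j, l))
        refine ⟨-z', ?_⟩
        push_cast
        rw [← abs_neg]
        convert hz' using 2
        ring
      · obtain ⟨z', hz'⟩ := hnear (Sum.inr l)
        refine ⟨-z', ?_⟩
        push_cast
        rw [← abs_neg]
        convert hz' using 2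
        ring)
  have hgood : ∀ C ∈ 𝒟, ∀ z, InCoset C.1 C.2 z → WeylBoth z := by
    intro C hC z hz
    obtain ⟨-, h2, ⟨e, he⟩, h4⟩ := h𝒟 C hC
    by_contra hW
    refine h4 z hz ⟨?_, hW⟩
    obtain ⟨e', he'⟩ := hz _ h2
    have he2 : ∑ i, (traceRelation n r i : ℝ) * (C.2 i : ℝ) = e := by
      have := congrArg (fun q : ℚ => (q : ℝ)) he
      push_cast at this
      exact this
    refine ⟨e' + e, ?_⟩
    push_cast
    rw [← he', ← he2, ← Finset.sum_add_distrib]
    exact Finset.sum_congr rfl fun i _ => by ring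
  refine ⟨𝒟, fun C hC => ⟨(h𝒟 C hC).1, ?_, hgood C hC⟩, ?_⟩
  · by_contra hno
    push Not at hno
    obtain ⟨z, hz0, hzW⟩ := exists_violation n r hn hr
    apply hzW
    apply hgood C hC
    intro m hm
    obtain ⟨d, rfl⟩ := hno m hm
    obtain ⟨-, h2, ⟨e, he⟩, h4⟩ := h𝒟 C hC
    have he2 : ∑ i, (traceRelation n r i : ℝ) * (C.2 i : ℝ) = e := by
      have := congrArg (fun q : ℚ => (q : ℝ)) he
      push_cast at this
      exact this
    refine ⟨-(d * e), ?_⟩
    push_cast
    rw [← he2, Finset.mul_sum, ← Finset.sum_neg_distrib]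
    have h5 : ∑ i, (((d • traceRelation n r) i : ℤ) : ℝ) * (z i - C.2 i) =
        d * ∑ i, (traceRelation n r i : ℝ) * z i + ∑ i, -((d : ℝ) * ((traceRelation n r i : ℝ) * C.2 i)) := by
      rw [Finset.mul_sum, ← Finset.sum_add_distrib]
      refine Finset.sum_congr rfl fun i _ => ?_
      simp only [Pi.smul_apply, smul_eq_mul]
      push_cast
      ring
    rw [h5, hz0, mul_zero, zero_add]
  · intro R _ _ _ _ α A lam phi N hα hlam hphi hN hNlam hNphi
    have := charZero_fraction (R := R)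
    refine or_iff_not_imp_left.mpr fun hnot => ?_
    have key : ∃ a : ℤ, IsCoprime a (N : ℤ) ∧
        ¬ WeylBoth (fun i => (a : ℝ) * (Sum.elim (fun p => lam p.1 p.2) phi : ExponentIndex n r → ℚ) i) := by
      by_contra hno
      push Not at hno
      apply hnot
      refine hcov (Sum.elim (fun p => lam p.1 p.2) phi) ⟨0, ?_⟩ ⟨N, hN, ?_, fun a ha h => ?_⟩
      · rw [tr_sum]
        simp only [Sum.elim_inl, Sum.elim_inr, Int.cast_zero]
        have h1 := HasExponents.trace hphi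
        have h2 := fun j => HasExponents.trace (hlam j)
        have h3 : (∑ j, A j).trace = ∑ j, (A j).trace := by
          rw [Matrix.trace_sum]
        rw [h3, map_sum, Finset.sum_congr rfl fun j _ => h2 j] at h1
        have h4 : ((∑ j, ∑ l, lam j l : ℚ) : FractionRing R) =
            ((∑ l, phi l : ℚ) : FractionRing R) := by
          push_cast
          push_cast at h1
          exact h1
        have h5 : ∑ j, ∑ l, lam j l = ∑ l, phi l := by exact_mod_cast h4
        rw [h5, sub_self]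
      · rintro (⟨j, l⟩ | l)
        · exact hNlam j l
        · exact hNphi l
      · exact h.2 (hno a ha)
    obtain ⟨a, ha, hbad⟩ := key
    obtain ⟨P₀, hP₀⟩ := exists_bad α hα A lam phi hlam hphi N hN hNlam hNphi a hbad
    refine ⟨⟨a, ha, P₀, hP₀⟩, not_condII_of α A N hN a ha ⟨1, one_ne_zero, P₀, ?_⟩⟩
    intro p hp hpP hap 𝔪 _ hpm _
    exact hP₀ p hp hpP hap 𝔪 hpm

end Pool.Agent.W432.TC
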