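import Mathlib

set_option autoImplicit false

namespace Pool.Agent.W432.TC

/-- The local factors used below. -/
noncomputable def hfac (p : ℕ) : ℝ := if p = 2 then (1 / 4 : ℝ) else if p = 3 then 8 / 9 else 1

lemma hfac_pos (p : ℕ) : 0 < hfac p := by
  unfold hfac; split_ifs <;> norm_num

lemma hfac_le_one (p : ℕ) : hfac p ≤ 1 := by
  unfold hfac; split_ifs <;> norm_num

lemma prod_hfac (S : Finset ℕ) : (2 / 9 : ℝ) ≤ ∏ p ∈ S, hfac p := by
  classical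
  have h1 : ∏ p ∈ S ∪ {2, 3}, hfac p ≤ ∏ p ∈ S, hfac p := by
    rw [← Finset.prod_sdiff (Finset.subset_union_left : S ⊆ S ∪ {2, 3})]
    have h2 : ∏ p ∈ (S ∪ {2, 3}) \ S, hfac p ≤ 1 :=
      Finset.prod_le_one (fun p _ => (hfac_pos p).le) fun p _ => hfac_le_one p
    have h3 : 0 ≤ ∏ p ∈ S, hfac p := Finset.prod_nonneg fun p _ => (hfac_pos p).le
    nlinarith
  refine le_trans ?_ h1
  rw [← Finset.prod_sdiff (Finset.subset_union_right : ({2, 3} : Finset ℕ) ⊆ S ∪ {2, 3})]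
  have h2 : ∏ p ∈ (S ∪ {2, 3}) \ {2, 3}, hfac p = 1 := by
    refine Finset.prod_eq_one fun p hp => ?_
    simp only [Finset.mem_sdiff, Finset.mem_insert, Finset.mem_singleton, not_or] at hp
    unfold hfac
    rw [if_neg hp.2.1, if_neg hp.2.2]
  rw [h2, one_mul, Finset.prod_pair (by norm_num)]
  unfold hfac
  norm_num

/-- A lower bound for Euler's function: `2 n ^ 2 ≤ 9 φ(n) ^ 3`. -/
theorem two_mul_sq_le (n : ℕ) (hn : 0 < n) : 2 * (n : ℝ) ^ 2 ≤ 9 * (n.totient : ℝ) ^ 3 := by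
  have h1 : (n.totient : ℝ) = n * ∏ p ∈ n.primeFactors, (1 - (p : ℝ)⁻¹) := by
    have := Nat.totient_eq_mul_prod_factors n
    have h2 := congrArg (fun x : ℚ => (x : ℝ)) this
    push_cast at h2
    exact h2
  have hpp : ∀ p ∈ n.primeFactors, p.Prime := fun p hp => Nat.prime_of_mem_primeFactors hp
  have h2 : (∏ p ∈ n.primeFactors, (p : ℝ)) ≤ n := by
    have := Nat.le_of_dvd hn (Nat.prod_primeFactors_dvd n)
    have h3 : ((∏ p ∈ n.primeFactors, p : ℕ) : ℝ) ≤ n := by exact_mod_cast this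
    push_cast at h3
    exact h3
  have h3 : (2 / 9 : ℝ) ≤ ∏ p ∈ n.primeFactors, ((p : ℝ) * (1 - (p : ℝ)⁻¹) ^ 3) := by
    refine (prod_hfac n.primeFactors).trans ?_
    refine Finset.prod_le_prod (fun p _ => (hfac_pos p).le) fun p hp => ?_
    have hp' := hpp p hp
    unfold hfac
    split_ifs with h h'
    · subst h; norm_num
    · subst h'; norm_num
    · have h5 : 5 ≤ p := by
        by_contra hlt
        have h6 := hp'.two_le
        interval_cases p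
        · exact h rfl
        · exact h' rfl
        · norm_num at hp'
      have h5' : (5 : ℝ) ≤ p := by exact_mod_cast h5
      have h6 : (p : ℝ) * (1 - (p : ℝ)⁻¹) ^ 3 = ((p : ℝ) - 1) ^ 3 / (p : ℝ) ^ 2 := by
        have : (p : ℝ) ≠ 0 := by linarith
        field_simp
      rw [h6, one_le_div (by positivity)]
      nlinarith [mul_nonneg (sub_nonneg.mpr h5') (sub_nonneg.mpr h5'),
        mul_nonneg (mul_nonneg (sub_nonneg.mpr h5') (sub_nonneg.mpr h5')) (sub_nonneg.mpr h5')]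
  rw [Finset.prod_mul_distrib, Finset.prod_pow] at h3
  have hn' : (0 : ℝ) < n := by exact_mod_cast hn
  set P := ∏ p ∈ n.primeFactors, (1 - (p : ℝ)⁻¹) with hP
  have hP0 : 0 ≤ P := Finset.prod_nonneg fun p hp => by
    have : (1 : ℝ) ≤ p := by exact_mod_cast (hpp p hp).one_lt.le
    have h7 : (p : ℝ)⁻¹ ≤ 1 := inv_le_one_of_one_le₀ this
    linarith
  have h4 : (2 / 9 : ℝ) ≤ n * P ^ 3 := h3.trans (mul_le_mul_of_nonneg_right h2 (by positivity))
  rw [h1]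
  have h5 : (n * P : ℝ) ^ 3 = n ^ 2 * (n * P ^ 3) := by ring
  rw [h5]
  nlinarith [mul_le_mul_of_nonneg_left h4 (sq_nonneg (n : ℝ))]

/-- `√q / φ(q)` tends to zero. -/
theorem exists_bound (η : ℝ) (hη : 0 < η) :
    ∃ Q : ℕ, ∀ q : ℕ, Q < q → (q : ℝ) ≤ η ^ 2 * (q.totient : ℝ) ^ 2 := by
  -- q ^ 4 ≤ (9/2)^2 φ^6 so q^3 * q ≤ ..., use (η²φ²)^3 = η^6 φ^6 ≥ η^6 (4/81) q^4 ≥ q^3
  obtain ⟨Q, hQ⟩ := exists_nat_gt (81 / (4 * η ^ 6))
  refine ⟨Q, fun q hq => ?_⟩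
  have hq0 : 0 < q := by omega
  have h1 := two_mul_sq_le q hq0
  have hqQ : (81 / (4 * η ^ 6)) < (q : ℝ) := hQ.trans (by exact_mod_cast hq)
  have hη6 : 0 < η ^ 6 := by positivity
  rw [div_lt_iff₀ (by positivity)] at hqQ
  have h2 : (2 * (q : ℝ) ^ 2) ^ 2 ≤ (9 * (q.totient : ℝ) ^ 3) ^ 2 :=
    pow_le_pow_left₀ (by positivity) h1 2
  have h3 : ((q : ℝ)) ^ 3 ≤ (η ^ 2 * (q.totient : ℝ) ^ 2) ^ 3 := by
    have h4 : (η ^ 2 * (q.totient : ℝ) ^ 2) ^ 3 = η ^ 6 * ((q.totient : ℝ) ^ 3) ^ 2 := by ring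
    rw [h4]
    have h5 : 4 * (q : ℝ) ^ 4 ≤ 81 * ((q.totient : ℝ) ^ 3) ^ 2 := by nlinarith [h2]
    have h6 : 81 * (q : ℝ) ^ 3 ≤ (q : ℝ) * (4 * η ^ 6) * (q : ℝ) ^ 3 :=
      mul_le_mul_of_nonneg_right hqQ.le (by positivity)
    nlinarith [mul_le_mul_of_nonneg_left h5 hη6.le]
  exact le_of_pow_le_pow_left₀ (by norm_num) (by positivity) h3

end Pool.Agent.W432.TC
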