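import Pool.Agent.W432.TC.Sum
import Pool.Agent.W432.TC.Totient

set_option autoImplicit false

namespace Pool.Agent.W432.TC

variable {N : ℕ} [NeZero N]

/-- The units congruent to one modulo `c`. -/
noncomputable def UU (N : ℕ) {c : ℕ} (h : c ∣ N) : Subgroup (ZMod N)ˣ := (ZMod.unitsMap h).ker

noncomputable instance (N : ℕ) [NeZero N] {c : ℕ} (h : c ∣ N) : Fintype (UU N h) := Fintype.ofFinite _

lemma card_UU {c : ℕ} (hc : 0 < c) (h : c ∣ N) :
    Fintype.card (UU N h) * c.totient = N.totient := by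
  have : NeZero c := ⟨hc.ne'⟩
  have h1 := Subgroup.card_mul_index (UU N h)
  rw [UU, Subgroup.index_ker, MonoidHom.range_eq_top.mpr (ZMod.unitsMap_surjective h)] at h1
  rw [Nat.card_congr (Subgroup.topEquiv (G := (ZMod c)ˣ)).toEquiv, Nat.card_eq_fintype_card,
    Nat.card_eq_fintype_card, Nat.card_eq_fintype_card, ZMod.card_units_eq_totient,
    ZMod.card_units_eq_totient] at h1
  rw [← h1]
  congr 1
  exact Fintype.card_congr (Equiv.refl _)

lemma addOrderOf_dvd (k : ZMod N) : addOrderOf k ∣ N := by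
  have := addOrderOf_dvd_natCard (G := ZMod N) k
  simpa using this

lemma st_le {c : ℕ} (h : c ∣ N) (k : ZMod N) :
    st (UU N h) k ≤ Fintype.card (UU N (addOrderOf_dvd k)) := by
  classical
  unfold st
  rw [← Finset.card_univ]
  refine Finset.card_le_card_of_injOn
    (fun s => if hs : ((s : (ZMod N)ˣ) ∈ UU N (addOrderOf_dvd k)) then ⟨(s : (ZMod N)ˣ), hs⟩ else 1)
    (fun _ _ => Finset.mem_coe.mpr (Finset.mem_univ _)) ?_
  have hmem : ∀ s ∈ Finset.univ.filter (fun u : UU N h => ((u : (ZMod N)ˣ) : ZMod N) * k = k),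
      (s : (ZMod N)ˣ) ∈ UU N (addOrderOf_dvd k) := by
    intro s hs
    simp only [Finset.mem_filter, Finset.mem_univ, true_and] at hs
    rw [UU, MonoidHom.mem_ker]
    apply Units.ext
    rw [ZMod.unitsMap_val, Units.val_one]
    -- (s.val - 1) k = 0
    have h1 : (((s : (ZMod N)ˣ) : ZMod N).val : ℤ) • k = (1 : ℤ) • k := by
      rw [zsmul_eq_mul, zsmul_eq_mul]
      simp only [Int.cast_natCast, Int.cast_one, one_mul]
      rw [ZMod.natCast_zmod_val, hs]
    have h2 : ((((s : (ZMod N)ˣ) : ZMod N).val : ℤ) - 1) • k = 0 := by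
      rw [sub_smul, h1, sub_self]
    have h3 := (addOrderOf_dvd_iff_zsmul_eq_zero).mpr h2
    have h4 := (ZMod.intCast_zmod_eq_zero_iff_dvd _ (addOrderOf k)).mpr h3
    push_cast at h4
    rw [sub_eq_zero] at h4
    rw [← h4]
    rw [ZMod.natCast_val]
  intro s hs t ht hst
  have hs' := hmem s hs
  have ht' := hmem t ht
  simp only [dif_pos hs', dif_pos ht'] at hst
  have h5 := congrArg (fun x : UU N (addOrderOf_dvd k) => (x : (ZMod N)ˣ)) hst
  exact Subtype.ext h5

lemma orb_ge {c : ℕ} (hc : 0 < c) (h : c ∣ N) (k : ZMod N) :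
    (addOrderOf k).totient ≤ (Orb (UU N h) k).card * c.totient := by
  have hN : 0 < N := NeZero.pos N
  have hq : 0 < addOrderOf k := addOrderOf_pos k
  have h1 := card_UU hc h
  have h2 := card_UU hq (addOrderOf_dvd k)
  have h3 := card_eq (UU N h) k
  have h4 := st_le h k
  have hU : 0 < Fintype.card (UU N h) := Fintype.card_pos
  have h5 : Fintype.card (UU N h) * (addOrderOf k).totient ≤
      Fintype.card (UU N h) * ((Orb (UU N h) k).card * c.totient) := by
    calc Fintype.card (UU N h) * (addOrderOf k).totient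
        = (Orb (UU N h) k).card * st (UU N h) k * (addOrderOf k).totient := by rw [← h3]
      _ ≤ (Orb (UU N h) k).card * Fintype.card (UU N (addOrderOf_dvd k)) *
            (addOrderOf k).totient := by gcongr
      _ = (Orb (UU N h) k).card * N.totient := by rw [mul_assoc, h2]
      _ = _ := by rw [← h1]; ring
  exact Nat.le_of_mul_le_mul_left h5 hU

/-- The character sum is small when the frequency has large order. -/
theorem exists_small (c : ℕ) (hc : 0 < c) (η : ℝ) (hη : 0 < η) :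
    ∃ Q : ℕ, ∀ (N : ℕ) [NeZero N] (h : c ∣ N) (k : ZMod N), Q < addOrderOf k →
      ‖S (UU N h) k‖ ≤ η * Fintype.card (UU N h) := by
  have hc' : (0 : ℝ) < c.totient := by exact_mod_cast Nat.totient_pos.mpr hc
  obtain ⟨Q, hQ⟩ := exists_bound (η / c.totient) (by positivity)
  refine ⟨Q, fun N _ h k hk => ?_⟩
  have h1 := hQ _ hk
  have h2 : ((addOrderOf k).totient : ℝ) ≤ (Orb (UU N h) k).card * c.totient := by
    exact_mod_cast orb_ge hc h k
  have h3 := orbit_le (UU N h) k
  have h4 : (Fintype.card (UU N h) : ℝ) = (Orb (UU N h) k).card * st (UU N h) k := by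
    exact_mod_cast card_eq (UU N h) k
  have hq : 0 < addOrderOf k := addOrderOf_pos k
  have ht : (0 : ℝ) < (addOrderOf k).totient := by exact_mod_cast Nat.totient_pos.mpr hq
  set O : ℝ := ((Orb (UU N h) k).card : ℝ)
  set F : ℝ := (Fintype.card (UU N h) : ℝ)
  have hO : 0 ≤ O := Nat.cast_nonneg _
  have hF : 0 ≤ F := Nat.cast_nonneg _
  have h5 : (O * ‖S (UU N h) k‖) ^ 2 ≤ addOrderOf k * F ^ 2 := by
    calc (O * ‖S (UU N h) k‖) ^ 2 = O * (O * ‖S (UU N h) k‖ ^ 2) := by ring
      _ ≤ O * (addOrderOf k * (F * st (UU N h) k)) := by gcongr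
      _ = addOrderOf k * (F * (O * st (UU N h) k)) := by ring
      _ = addOrderOf k * F ^ 2 := by rw [← h4]; ring
  have h6 : ((addOrderOf k).totient * ‖S (UU N h) k‖) ^ 2 ≤
      (c.totient : ℝ) ^ 2 * ((η / c.totient) ^ 2 * ((addOrderOf k).totient : ℝ) ^ 2 * F ^ 2) := by
    calc ((addOrderOf k).totient * ‖S (UU N h) k‖) ^ 2
        ≤ ((O * c.totient) * ‖S (UU N h) k‖) ^ 2 := by gcongr
      _ = (c.totient : ℝ) ^ 2 * (O * ‖S (UU N h) k‖) ^ 2 := by ring
      _ ≤ (c.totient : ℝ) ^ 2 * (addOrderOf k * F ^ 2) := by gcongr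
      _ ≤ _ := by gcongr
  have h7 : (c.totient : ℝ) ^ 2 * ((η / c.totient) ^ 2 * ((addOrderOf k).totient : ℝ) ^ 2 * F ^ 2) =
      ((addOrderOf k).totient * (η * F)) ^ 2 := by
    field_simp
  rw [h7] at h6
  have h8 := (pow_le_pow_iff_left₀ (by positivity) (by positivity) (by norm_num)).mp h6
  exact le_of_mul_le_mul_left h8 ht

end Pool.Agent.W432.TC
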