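import Pool.Agent.W432.TC.Bound

set_option autoImplicit false

open scoped ComplexConjugate

namespace Pool.Agent.W432.TC

/-- `exp(2 π i t)`. -/
noncomputable def ee (t : ℝ) : ℂ := Complex.exp (2 * Real.pi * Complex.I * t)

lemma ee_zero : ee 0 = 1 := by simp [ee]

lemma ee_add (s t : ℝ) : ee (s + t) = ee s * ee t := by
  unfold ee; rw [← Complex.exp_add]; congr 1; push_cast; ring

lemma ee_int (z : ℤ) : ee z = 1 := by
  unfold ee
  rw [Complex.exp_eq_one_iff]
  exact ⟨z, by push_cast; ring⟩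

lemma ee_nat_mul (n : ℕ) (t : ℝ) : ee (n * t) = ee t ^ n := by
  unfold ee
  rw [← Complex.exp_nat_mul]; congr 1; push_cast; ring

lemma norm_ee (t : ℝ) : ‖ee t‖ = 1 := by
  unfold ee
  rw [show (2 * Real.pi * Complex.I * t : ℂ) = ((2 * Real.pi * t : ℝ) : ℂ) * Complex.I by
    push_cast; ring]
  exact Complex.norm_exp_ofReal_mul_I _

lemma conj_ee (t : ℝ) : conj (ee t) = ee (-t) := by
  unfold ee
  rw [← Complex.exp_conj]
  congr 1
  simp only [map_mul, Complex.conj_I, Complex.conj_ofReal, Complex.ofReal_neg]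
  rw [show (starRingEnd ℂ) 2 = 2 from Complex.conj_ofNat 2]
  ring

lemma ee_sum {ι : Type*} (s : Finset ι) (f : ι → ℝ) : ee (∑ i ∈ s, f i) = ∏ i ∈ s, ee (f i) := by
  classical
  induction s using Finset.induction_on with
  | empty => simp [ee_zero]
  | insert a s ha ih => rw [Finset.sum_insert ha, Finset.prod_insert ha, ee_add, ih]

/-- Closeness of `exp(2 π i t)` to one. -/
lemma near {t δ : ℝ} (h : ‖ee t - 1‖ < 4 * δ) : ∃ z : ℤ, |t - z| < δ := by
  refine ⟨round t, ?_⟩
  set s : ℝ := t - round t with hs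
  have hs2 : |s| ≤ 1 / 2 := abs_sub_round t
  have h1 : ee t = ee s := by
    have : t = s + round t := by rw [hs]; ring
    rw [this, ee_add, ee_int, mul_one]
  have h2 : ‖ee s - 1‖ = ‖2 * Real.sin (Real.pi * s)‖ := by
    have := Complex.norm_exp_I_mul_ofReal_sub_one (2 * Real.pi * s)
    rw [show 2 * Real.pi * s / 2 = Real.pi * s by ring] at this
    rw [← this]
    unfold ee
    congr 2
    push_cast
    ring_nf
  have h3 : 4 * |s| ≤ ‖ee s - 1‖ := by
    rw [h2, Real.norm_eq_abs, abs_mul, abs_two]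
    have h4 : 2 / Real.pi * (Real.pi * |s|) ≤ Real.sin (Real.pi * |s|) := by
      apply Real.mul_le_sin
      · positivity
      · nlinarith [Real.pi_pos]
    have h5 : 2 / Real.pi * (Real.pi * |s|) = 2 * |s| := by
      field_simp
    rw [h5] at h4
    have h6 : Real.sin (Real.pi * |s|) ≤ |Real.sin (Real.pi * s)| := by
      rcases abs_cases s with ⟨h7, -⟩ | ⟨h7, -⟩
      · rw [h7]; exact le_abs_self _
      · rw [h7, mul_neg, Real.sin_neg]; exact neg_le_abs _
    linarith
  rw [h1] at h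
  linarith

/-- The Dirichlet type sum. -/
noncomputable def G (K : ℕ) (t : ℝ) : ℂ := ∑ j ∈ Finset.range K, ee (j * t)

lemma G_mul (K : ℕ) (t : ℝ) : G K t * (ee t - 1) = ee (K * t) - 1 := by
  unfold G
  rw [Finset.sum_congr rfl fun j _ => ee_nat_mul j t, ee_nat_mul, geom_sum_mul]

lemma norm_G_le {K : ℕ} {t δ : ℝ} (hδ : 0 < δ) (h : δ ≤ ‖ee t - 1‖) : ‖G K t‖ ^ 2 ≤ 4 / δ ^ 2 := by
  have h1 : ‖G K t‖ * ‖ee t - 1‖ ≤ 2 := by
    rw [← norm_mul, G_mul]
    calc ‖ee (K * t) - 1‖ ≤ ‖ee (K * t)‖ + ‖(1 : ℂ)‖ := norm_sub_le _ _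
      _ = 2 := by rw [norm_ee, norm_one]; norm_num
  have h2 : ‖G K t‖ * δ ≤ 2 := (mul_le_mul_of_nonneg_left h (norm_nonneg _)).trans h1
  rw [le_div_iff₀ (by positivity)]
  have h3 : (‖G K t‖ * δ) ^ 2 ≤ 2 ^ 2 := pow_le_pow_left₀ (by positivity) h2 2
  nlinarith

lemma norm_G_sq (K : ℕ) (t : ℝ) : ((‖G K t‖ ^ 2 : ℝ) : ℂ) =
    ∑ p ∈ Finset.range K ×ˢ Finset.range K, ee (((p.1 : ℤ) - (p.2 : ℤ) : ℤ) * t) := by
  push_cast
  rw [← Complex.mul_conj']
  unfold G
  rw [map_sum, Finset.sum_mul_sum, Finset.sum_product]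
  refine Finset.sum_congr rfl fun i _ => Finset.sum_congr rfl fun j _ => ?_
  rw [conj_ee, ← ee_add]
  congr 1
  push_cast
  ring

variable {I : Type*} [Fintype I] [DecidableEq I]

/-- the difference vector. -/
def dif (h : I → ℕ × ℕ) : I → ℤ := fun i => ((h i).1 : ℤ) - ((h i).2 : ℤ)

lemma prod_sum_ee (D : I → Finset (ℕ × ℕ)) (t : I → ℝ) :
    ∏ i, ∑ p ∈ D i, ee (((p.1 : ℤ) - (p.2 : ℤ) : ℤ) * t i) =
      ∑ h ∈ Fintype.piFinset D, ee (∑ i, (dif h i : ℝ) * t i) := by
  rw [Finset.prod_univ_sum]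
  refine Finset.sum_congr rfl fun h _ => ?_
  rw [ee_sum]
  rfl

/-- full index sets. -/
def Dfull (I : Type*) (K : ℕ) : I → Finset (ℕ × ℕ) := fun _ => Finset.range K ×ˢ Finset.range K

/-- index sets diagonal at one place. -/
def Ddiag (K : ℕ) (i₀ : I) : I → Finset (ℕ × ℕ) := fun i =>
  if i = i₀ then (Finset.range K ×ˢ Finset.range K).filter (fun p => p.1 = p.2)
  else Finset.range K ×ˢ Finset.range K

omit [Fintype I] in
lemma Ddiag_sub (K : ℕ) (i₀ i : I) : Ddiag K i₀ i ⊆ Dfull I K i := by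
  unfold Ddiag Dfull
  split_ifs
  · exact Finset.filter_subset _ _
  · exact subset_rfl

lemma sum_diag (K : ℕ) (t : ℝ) : ∑ p ∈ (Finset.range K ×ˢ Finset.range K).filter (fun p => p.1 = p.2),
    ee (((p.1 : ℤ) - (p.2 : ℤ) : ℤ) * t) = (K : ℂ) := by
  have h1 : ∀ p ∈ (Finset.range K ×ˢ Finset.range K).filter (fun p => p.1 = p.2),
      ee (((p.1 : ℤ) - (p.2 : ℤ) : ℤ) * t) = 1 := by
    intro p hp
    have := (Finset.mem_filter.mp hp).2
    rw [this, sub_self]
    simp [ee_zero]
  rw [Finset.sum_congr rfl h1, Finset.sum_const, nsmul_eq_mul, mul_one]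
  congr 1
  have : ((Finset.range K ×ˢ Finset.range K).filter (fun p => p.1 = p.2)).card =
      (Finset.range K).card := by
    refine Finset.card_bij' (fun p _ => p.1) (fun j _ => (j, j)) ?_ ?_ ?_ ?_
    · intro p hp
      simp only [Finset.mem_filter, Finset.mem_product] at hp
      exact hp.1.1
    · intro j hj
      rw [Finset.mem_filter, Finset.mem_product]
      exact ⟨⟨hj, hj⟩, rfl⟩
    · intro p hp
      simp only [Finset.mem_filter, Finset.mem_product] at hp
      exact Prod.ext rfl hp.2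
    · intro j _; rfl
  rw [this, Finset.card_range]

/-- the product of Fejer kernels -/
noncomputable def P (K : ℕ) (t : I → ℝ) : ℝ := ∏ i, ‖G K (t i)‖ ^ 2

/-- the product of Fejer kernels with one factor replaced by `K`. -/
noncomputable def P' (K : ℕ) (i₀ : I) (t : I → ℝ) : ℝ :=
  K * ∏ i ∈ Finset.univ.erase i₀, ‖G K (t i)‖ ^ 2

lemma P_eq (K : ℕ) (t : I → ℝ) : ((P K t : ℝ) : ℂ) =
    ∑ h ∈ Fintype.piFinset (Dfull I K), ee (∑ i, (dif h i : ℝ) * t i) := by
  rw [← prod_sum_ee]
  unfold P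
  rw [Complex.ofReal_prod]
  exact Finset.prod_congr rfl fun i _ => norm_G_sq K (t i)

lemma P'_eq (K : ℕ) (i₀ : I) (t : I → ℝ) : ((P' K i₀ t : ℝ) : ℂ) =
    ∑ h ∈ Fintype.piFinset (Ddiag K i₀), ee (∑ i, (dif h i : ℝ) * t i) := by
  rw [← prod_sum_ee]
  unfold P'
  rw [← Finset.mul_prod_erase Finset.univ _ (Finset.mem_univ i₀)]
  rw [Complex.ofReal_mul, Complex.ofReal_prod]
  congr 1
  · simp only [Ddiag, if_true]
    rw [sum_diag]; simp
  · refine Finset.prod_congr rfl fun i hi => ?_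
    have : i ≠ i₀ := (Finset.mem_erase.mp hi).1
    simp only [Ddiag, if_neg this]
    exact norm_G_sq K (t i)

omit [DecidableEq I] in
lemma P_nonneg (K : ℕ) (t : I → ℝ) : 0 ≤ P K t := Finset.prod_nonneg fun _ _ => by positivity

lemma P'_nonneg (K : ℕ) (i₀ : I) (t : I → ℝ) : 0 ≤ P' K i₀ t :=
  mul_nonneg (Nat.cast_nonneg _) (Finset.prod_nonneg fun _ _ => by positivity)

lemma P_le {K : ℕ} (hK : 0 < K) {δ : ℝ} (hδ : 0 < δ) {t : I → ℝ} {i₀ : I}
    (h : δ ≤ ‖ee (t i₀) - 1‖) : P K t ≤ 4 / (δ ^ 2 * K) * P' K i₀ t := by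
  unfold P P'
  rw [← Finset.mul_prod_erase Finset.univ _ (Finset.mem_univ i₀)]
  have hK' : (0 : ℝ) < K := by exact_mod_cast hK
  have h1 : 4 / (δ ^ 2 * K) * (K * ∏ i ∈ Finset.univ.erase i₀, ‖G K (t i)‖ ^ 2) =
      4 / δ ^ 2 * ∏ i ∈ Finset.univ.erase i₀, ‖G K (t i)‖ ^ 2 := by
    field_simp
  rw [h1]
  exact mul_le_mul_of_nonneg_right (norm_G_le hδ h) (Finset.prod_nonneg fun _ _ => by positivity)

/-- Galois orbits of torsion points come close to every point of their coset, as soon as they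
avoid finitely many proper sub-cosets. -/
theorem equidist (L : AddSubgroup (I → ℤ)) (x₀ : I → ℚ) (y : I → ℝ)
    (hy : ∀ m ∈ L, ∃ z : ℤ, ∑ i, (m i : ℝ) * (y i - x₀ i) = z) (δ : ℝ) (hδ : 0 < δ) :
    ∃ K Q : ℕ, ∀ x : I → ℚ, (∀ m ∈ L, ∃ z : ℤ, ∑ i, (m i : ℚ) * (x i - x₀ i) = z) →
      (∀ m ∉ L, (∀ i, |m i| ≤ K) → ∀ q : ℕ, 0 < q → q ≤ Q →
        ¬ ∃ z : ℤ, (q : ℚ) * ∑ i, (m i : ℚ) * x i = z) →
      ∀ N : ℕ, 0 < N → (∀ i, ∃ z : ℤ, (N : ℚ) * x i = z) →
        ∃ a : ℤ, IsCoprime a (N : ℤ) ∧ ∀ i, ∃ z : ℤ, |(a : ℝ) * x i - y i - z| < δ := by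
  classical
  -- a common denominator of `x₀`
  let c : ℕ := ∏ i, (x₀ i).den
  have hc : 0 < c := Finset.prod_pos fun i _ => (x₀ i).den_pos
  have hcx : ∀ i, ∃ z : ℤ, (c : ℚ) * x₀ i = z := by
    intro i
    obtain ⟨e, he⟩ : (x₀ i).den ∣ c := Finset.dvd_prod_of_mem _ (Finset.mem_univ i)
    refine ⟨e * (x₀ i).num, ?_⟩
    rw [he]
    push_cast
    have := Rat.mul_den_eq_num (x₀ i)
    linear_combination (e : ℚ) * this
  -- the size of the box
  set δ₁ : ℝ := 4 * δ with hδ₁
  have hδ₁0 : 0 < δ₁ := by positivity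
  obtain ⟨K, hK⟩ := exists_nat_gt (max 1 (8 * Fintype.card I / δ₁ ^ 2))
  have hK1 : 1 < (K : ℝ) := lt_of_le_of_lt (le_max_left _ _) hK
  have hK2 : 8 * Fintype.card I / δ₁ ^ 2 < (K : ℝ) := lt_of_le_of_lt (le_max_right _ _) hK
  have hK0 : 0 < K := by
    have : (0 : ℝ) < K := by linarith
    exact_mod_cast this
  set M : ℝ := ((Fintype.piFinset (Dfull I K)).card : ℝ) with hM
  have hM0 : 0 ≤ M := Nat.cast_nonneg _
  set η : ℝ := 1 / (3 * (M + 1)) with hη
  have hη0 : 0 < η := by positivity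
  obtain ⟨Q, hQ⟩ := exists_small c hc η hη0
  refine ⟨K, Q, fun x hx hx2 N₀ hN₀ hN₀x => ?_⟩
  let N : ℕ := N₀ * c
  have hN : 0 < N := Nat.mul_pos hN₀ hc
  have : NeZero N := ⟨hN.ne'⟩
  have hcN : c ∣ N := Dvd.intro_left N₀ rfl
  have hNx : ∀ i, ∃ z : ℤ, (N : ℚ) * x i = z := by
    intro i
    obtain ⟨z, hz⟩ := hN₀x i
    refine ⟨c * z, ?_⟩
    simp only [N]
    push_cast
    linear_combination (c : ℚ) * hz
  choose X hX using hNx
  let U := UU N hcN
  -- the integer attached to a unit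
  let av : U → ℤ := fun u => (((u : (ZMod N)ˣ) : ZMod N).val : ℤ)
  have hav : ∀ u : U, IsCoprime (av u) (N₀ : ℤ) := by
    intro u
    have h1 : (((u : (ZMod N)ˣ) : ZMod N).val).Coprime N := ZMod.val_coe_unit_coprime _
    have h2 : (((u : (ZMod N)ˣ) : ZMod N).val).Coprime N₀ :=
      Nat.Coprime.coprime_dvd_right (Dvd.intro _ rfl) h1
    exact Nat.isCoprime_iff_coprime.mpr h2
  have hav1 : ∀ u : U, (c : ℤ) ∣ av u - 1 := by
    intro u
    rw [← ZMod.intCast_zmod_eq_zero_iff_dvd]
    have h1 : ZMod.unitsMap hcN (u : (ZMod N)ˣ) = 1 := u.2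
    have h2 := congrArg (fun v : (ZMod c)ˣ => (v : ZMod c)) h1
    simp only [ZMod.unitsMap_val, Units.val_one] at h2
    simp only [av]
    push_cast
    rw [ZMod.natCast_val, h2, sub_self]
  by_contra hcon
  -- no unit is good
  have hbad : ∀ u : U, ∃ i, δ₁ ≤ ‖ee ((av u : ℝ) * x i - y i) - 1‖ := by
    intro u
    by_contra hno
    push Not at hno
    exact hcon ⟨av u, hav u, fun i => near (hno i)⟩
  -- averages
  have havg : ∀ D : I → Finset (ℕ × ℕ), (∀ i, D i ⊆ Dfull I K i) →
      ‖∑ u : U, ∑ h ∈ Fintype.piFinset D, ee (∑ i, (dif h i : ℝ) * ((av u : ℝ) * x i - y i)) -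
        (Fintype.card U : ℂ) * ((Fintype.piFinset D).filter (fun h => dif h ∈ L)).card‖ ≤
      η * Fintype.card U * M := by
    intro D hD
    rw [Finset.sum_comm]
    have h1 : (Fintype.card U : ℂ) * ((Fintype.piFinset D).filter (fun h => dif h ∈ L)).card =
        ∑ h ∈ Fintype.piFinset D, if dif h ∈ L then (Fintype.card U : ℂ) else 0 := by
      rw [← Finset.sum_filter, Finset.sum_const, nsmul_eq_mul, mul_comm]
    rw [h1, ← Finset.sum_sub_distrib]
    have h2 : ∀ h ∈ Fintype.piFinset D,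
        ‖∑ u : U, ee (∑ i, (dif h i : ℝ) * ((av u : ℝ) * x i - y i)) -
          (if dif h ∈ L then (Fintype.card U : ℂ) else 0)‖ ≤ η * Fintype.card U := by
      intro h hh
      by_cases hL : dif h ∈ L
      · rw [if_pos hL]
        have h3 : ∀ u : U, ee (∑ i, (dif h i : ℝ) * ((av u : ℝ) * x i - y i)) = 1 := by
          intro u
          obtain ⟨z₁, hz₁⟩ := hx _ hL
          obtain ⟨z₂, hz₂⟩ := hy _ hL
          obtain ⟨e, he⟩ := hav1 u
          choose w hw using hcx
          have hz₁' : ∑ i, (dif h i : ℝ) * ((x i : ℝ) - x₀ i) = z₁ := by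
            have := congrArg (fun q : ℚ => (q : ℝ)) hz₁
            push_cast at this
            exact this
          have hw' : ∀ i, (c : ℝ) * x₀ i = w i := fun i => by
            have := congrArg (fun q : ℚ => (q : ℝ)) (hw i)
            push_cast at this
            exact this
          have he' : (av u : ℝ) - 1 = c * e := by exact_mod_cast he
          have h4 : ∑ i, (dif h i : ℝ) * ((av u : ℝ) * x i - y i) =
              ((av u * z₁ - z₂ + e * ∑ i, dif h i * w i : ℤ) : ℝ) := by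
            push_cast
            have h5 : ∀ i, (dif h i : ℝ) * ((av u : ℝ) * x i - y i) =
                (av u : ℝ) * ((dif h i : ℝ) * ((x i : ℝ) - x₀ i)) -
                  (dif h i : ℝ) * (y i - x₀ i) + (e : ℝ) * ((dif h i : ℝ) * w i) := by
              intro i
              rw [← hw' i]
              linear_combination (dif h i : ℝ) * (x₀ i : ℝ) * he'
            rw [Finset.sum_congr rfl fun i _ => h5 i, Finset.sum_add_distrib,
              Finset.sum_sub_distrib, ← Finset.mul_sum, ← Finset.mul_sum, hz₁', hz₂]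
          rw [h4, ee_int]
        rw [Finset.sum_congr rfl fun u _ => h3 u, Finset.sum_const, nsmul_eq_mul, mul_one,
          Finset.card_univ, sub_self, norm_zero]
        positivity
      · rw [if_neg hL, sub_zero]
        -- the frequency
        let k : ℤ := ∑ i, dif h i * X i
        have hk : ∀ u : U, ee (∑ i, (dif h i : ℝ) * ((av u : ℝ) * x i - y i)) =
            ZMod.stdAddChar (((u : (ZMod N)ˣ) : ZMod N) * (k : ZMod N)) *
              ee (-∑ i, (dif h i : ℝ) * y i) := by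
          intro u
          have hX' : ∀ i, (x i : ℝ) = (X i : ℝ) / N := fun i => by
            have := congrArg (fun q : ℚ => (q : ℝ)) (hX i)
            push_cast at this
            rw [← this]
            have : (N : ℝ) ≠ 0 := by exact_mod_cast hN.ne'
            field_simp
          have h3 : ∑ i, (dif h i : ℝ) * ((av u : ℝ) * x i - y i) =
              ((av u * k : ℤ) : ℝ) / N + -∑ i, (dif h i : ℝ) * y i := by
            simp only [k]
            push_cast
            rw [Finset.mul_sum, Finset.sum_div, ← Finset.sum_neg_distrib, ← Finset.sum_add_distrib]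
            refine Finset.sum_congr rfl fun i _ => ?_
            rw [hX' i]; ring
          rw [h3, ee_add]
          congr 1
          have h4 : ((u : (ZMod N)ˣ) : ZMod N) * (k : ZMod N) = ((av u * k : ℤ) : ZMod N) := by
            simp only [av]
            push_cast
            rw [ZMod.natCast_zmod_val]
          rw [h4, ZMod.stdAddChar_coe]
          unfold ee
          congr 1
          push_cast
          ring
        rw [Finset.sum_congr rfl fun u _ => hk u, ← Finset.sum_mul, norm_mul, norm_ee, mul_one]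
        refine hQ N hcN (k : ZMod N) ?_
        by_contra hq
        push Not at hq
        refine hx2 (dif h) hL ?_ (addOrderOf (k : ZMod N)) (addOrderOf_pos _) hq ?_
        · intro i
          have h3 := hD i (Fintype.mem_piFinset.mp hh i)
          simp only [Dfull, Finset.mem_product, Finset.mem_range] at h3
          unfold dif
          rw [abs_le]
          constructor <;> omega
        · have h3 : (addOrderOf (k : ZMod N)) • (k : ZMod N) = 0 := addOrderOf_nsmul_eq_zero _
          rw [nsmul_eq_mul] at h3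
          have h4 : (((addOrderOf (k : ZMod N) : ℤ) * k : ℤ) : ZMod N) = 0 := by
            push_cast; exact h3
          rw [ZMod.intCast_zmod_eq_zero_iff_dvd] at h4
          obtain ⟨z, hz⟩ := h4
          refine ⟨z, ?_⟩
          have h5 : (N : ℚ) * ∑ i, (dif h i : ℚ) * x i = k := by
            simp only [k]
            push_cast
            rw [Finset.mul_sum]
            refine Finset.sum_congr rfl fun i _ => ?_
            rw [← hX i]; ring
          have h6 : ((addOrderOf (k : ZMod N) : ℕ) : ℚ) * k = N * z := by exact_mod_cast hz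
          have hN' : (N : ℚ) ≠ 0 := by exact_mod_cast hN.ne'
          apply mul_left_cancel₀ hN'
          rw [← h6, ← h5]
          ring
    calc _ ≤ ∑ h ∈ Fintype.piFinset D, ‖∑ u : U, ee (∑ i, (dif h i : ℝ) * ((av u : ℝ) * x i - y i)) -
          (if dif h ∈ L then (Fintype.card U : ℂ) else 0)‖ := norm_sum_le _ _
      _ ≤ ∑ h ∈ Fintype.piFinset D, η * Fintype.card U := Finset.sum_le_sum h2
      _ = (Fintype.piFinset D).card * (η * Fintype.card U) := by
          rw [Finset.sum_const, nsmul_eq_mul]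
      _ ≤ M * (η * Fintype.card U) := by
          refine mul_le_mul_of_nonneg_right ?_ (by positivity)
          rw [hM]
          exact_mod_cast Finset.card_le_card (Fintype.piFinset_subset D (Dfull I K) hD)
      _ = _ := by ring
  set F : ℝ := (Fintype.card U : ℝ) with hF
  have hFpos : 0 < F := by
    rw [hF]; exact_mod_cast Fintype.card_pos
  set s : ℝ := (((Fintype.piFinset (Dfull I K)).filter (fun h => dif h ∈ L)).card : ℝ) with hs
  have hs1 : 1 ≤ s := by
    have : 0 < ((Fintype.piFinset (Dfull I K)).filter (fun h => dif h ∈ L)).card := by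
      apply Finset.card_pos.mpr
      refine ⟨fun _ => (0, 0), ?_⟩
      rw [Finset.mem_filter, Fintype.mem_piFinset]
      refine ⟨fun i => ?_, ?_⟩
      · simp only [Dfull, Finset.mem_product, Finset.mem_range]
        exact ⟨hK0, hK0⟩
      · have : dif (fun _ : I => ((0, 0) : ℕ × ℕ)) = 0 := by
          ext1 i; simp [dif]
        rw [this]; exact L.zero_mem
    rw [hs]
    exact_mod_cast this
  -- real forms
  have hfull : F * s - η * F * M ≤ ∑ u : U, P K (fun i => (av u : ℝ) * x i - y i) := by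
    have h1 := havg (Dfull I K) fun _ => subset_rfl
    have h2 : ((∑ u : U, P K (fun i => (av u : ℝ) * x i - y i) : ℝ) : ℂ) =
        ∑ u : U, ∑ h ∈ Fintype.piFinset (Dfull I K),
          ee (∑ i, (dif h i : ℝ) * ((av u : ℝ) * x i - y i)) := by
      rw [Complex.ofReal_sum]
      exact Finset.sum_congr rfl fun u _ => P_eq K _
    rw [← h2] at h1
    have h3 : ‖(((∑ u : U, P K (fun i => (av u : ℝ) * x i - y i)) - F * s : ℝ) : ℂ)‖ ≤
        η * F * M := by
      rw [hs, hF]; push_cast; push_cast at h1; exact h1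
    rw [Complex.norm_real, Real.norm_eq_abs, abs_le] at h3
    linarith [h3.1]
  have hdiag : ∀ i₀, ∑ u : U, P' K i₀ (fun i => (av u : ℝ) * x i - y i) ≤ F * s + η * F * M := by
    intro i₀
    have h1 := havg (Ddiag K i₀) (Ddiag_sub K i₀)
    have h2 : ((∑ u : U, P' K i₀ (fun i => (av u : ℝ) * x i - y i) : ℝ) : ℂ) =
        ∑ u : U, ∑ h ∈ Fintype.piFinset (Ddiag K i₀),
          ee (∑ i, (dif h i : ℝ) * ((av u : ℝ) * x i - y i)) := by
      rw [Complex.ofReal_sum]
      exact Finset.sum_congr rfl fun u _ => P'_eq K i₀ _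
    rw [← h2] at h1
    set s' : ℝ := (((Fintype.piFinset (Ddiag K i₀)).filter (fun h => dif h ∈ L)).card : ℝ) with hs'
    have h3 : ‖(((∑ u : U, P' K i₀ (fun i => (av u : ℝ) * x i - y i)) - F * s' : ℝ) : ℂ)‖ ≤
        η * F * M := by
      rw [hs', hF]; push_cast; push_cast at h1; exact h1
    rw [Complex.norm_real, Real.norm_eq_abs, abs_le] at h3
    have h4 : s' ≤ s := by
      rw [hs', hs]
      exact_mod_cast Finset.card_le_card (Finset.filter_subset_filter _
        (Fintype.piFinset_subset _ _ (Ddiag_sub K i₀)))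
    nlinarith [h3.2, mul_le_mul_of_nonneg_left h4 hFpos.le]
  have hPle : ∀ u : U, P K (fun i => (av u : ℝ) * x i - y i) ≤
      4 / (δ₁ ^ 2 * K) * ∑ i₀, P' K i₀ (fun i => (av u : ℝ) * x i - y i) := by
    intro u
    obtain ⟨i₀, hi₀⟩ := hbad u
    refine (P_le hK0 hδ₁0 (t := fun i => (av u : ℝ) * x i - y i) hi₀).trans ?_
    refine mul_le_mul_of_nonneg_left ?_ (by positivity)
    exact Finset.single_le_sum (f := fun i₀ => P' K i₀ (fun i => (av u : ℝ) * x i - y i))
      (fun i _ => P'_nonneg K i _) (Finset.mem_univ i₀)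
  have hsum : ∑ u : U, P K (fun i => (av u : ℝ) * x i - y i) ≤
      4 / (δ₁ ^ 2 * K) * (Fintype.card I * (F * s + η * F * M)) := by
    calc _ ≤ ∑ u : U, 4 / (δ₁ ^ 2 * K) * ∑ i₀, P' K i₀ (fun i => (av u : ℝ) * x i - y i) :=
          Finset.sum_le_sum fun u _ => hPle u
      _ = 4 / (δ₁ ^ 2 * K) * ∑ i₀, ∑ u : U, P' K i₀ (fun i => (av u : ℝ) * x i - y i) := by
          rw [← Finset.mul_sum, Finset.sum_comm]
      _ ≤ 4 / (δ₁ ^ 2 * K) * ∑ i₀ : I, (F * s + η * F * M) := by
          refine mul_le_mul_of_nonneg_left (Finset.sum_le_sum fun i₀ _ => hdiag i₀) (by positivity)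
      _ = _ := by rw [Finset.sum_const, nsmul_eq_mul, Finset.card_univ]
  have hKR : (0 : ℝ) < K := by linarith
  have h8 : 4 / (δ₁ ^ 2 * K) * Fintype.card I ≤ 1 / 2 := by
    rw [div_lt_iff₀ (by positivity)] at hK2
    rw [div_mul_eq_mul_div, div_le_iff₀ (by positivity)]
    nlinarith
  have h9 : F * s - η * F * M ≤ 1 / 2 * (F * s + η * F * M) := by
    refine hfull.trans (hsum.trans ?_)
    rw [← mul_assoc]
    exact mul_le_mul_of_nonneg_right h8 (by positivity)
  have h10 : s ≤ 3 * (η * M) := by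
    have : F * s ≤ F * (3 * (η * M)) := by nlinarith
    exact le_of_mul_le_mul_left this hFpos
  have h11 : 3 * (η * M) < 1 := by
    rw [hη]
    have : 3 * (1 / (3 * (M + 1)) * M) = M / (M + 1) := by
      field_simp
    rw [this, div_lt_one (by positivity)]
    linarith
  linarith

end Pool.Agent.W432.TC
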