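import Mathlib

set_option autoImplicit false

open scoped ComplexConjugate

namespace Pool.Agent.W432.TC

section orbit

variable {N : ℕ} [NeZero N] (U : Subgroup (ZMod N)ˣ) [Fintype U] (k : ZMod N)

/-- The character sum over a group of units. -/
noncomputable def S (z : ZMod N) : ℂ :=
  ∑ u : U, ZMod.stdAddChar (((u : (ZMod N)ˣ) : ZMod N) * z)

/-- number of elements of the group fixing `k`. -/
noncomputable def st : ℕ := by
  classical exact (Finset.univ.filter fun u : U => ((u : (ZMod N)ˣ) : ZMod N) * k = k).card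

/-- the orbit of `k`. -/
noncomputable def Orb : Finset (ZMod N) := by
  classical exact Finset.univ.image fun u : U => ((u : (ZMod N)ˣ) : ZMod N) * k

lemma card_fiber (u : U) : (by classical exact (Finset.univ.filter fun u' : U =>
    ((u' : (ZMod N)ˣ) : ZMod N) * k = ((u : (ZMod N)ˣ) : ZMod N) * k).card) = st U k := by
  classical
  unfold st
  refine Finset.card_bij' (fun u' _ => u⁻¹ * u') (fun s _ => u * s) ?_ ?_ ?_ ?_
  · intro u' hu'
    simp only [Finset.mem_filter, Finset.mem_univ, true_and] at hu' ⊢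
    have : ((u⁻¹ * u' : U) : (ZMod N)ˣ) = (u : (ZMod N)ˣ)⁻¹ * u' := rfl
    rw [this, Units.val_mul, mul_assoc, hu', ← mul_assoc, Units.inv_mul, one_mul]
  · intro s hs
    simp only [Finset.mem_filter, Finset.mem_univ, true_and] at hs ⊢
    have : ((u * s : U) : (ZMod N)ˣ) = (u : (ZMod N)ˣ) * s := rfl
    rw [this, Units.val_mul, mul_assoc, hs]
  · intro u' _; simp
  · intro s _; simp

lemma card_eq : Fintype.card U = (Orb U k).card * st U k := by
  classical
  have h := Finset.card_eq_sum_card_image (fun u : U => ((u : (ZMod N)ˣ) : ZMod N) * k)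
    (Finset.univ)
  rw [Finset.card_univ] at h
  rw [h]
  have h2 : ∀ z ∈ Finset.univ.image (fun u : U => ((u : (ZMod N)ˣ) : ZMod N) * k),
      (Finset.univ.filter fun u' : U => ((u' : (ZMod N)ˣ) : ZMod N) * k = z).card = st U k := by
    intro z hz
    obtain ⟨u, -, rfl⟩ := Finset.mem_image.mp hz
    exact card_fiber U k u
  rw [Finset.sum_congr rfl h2, Finset.sum_const, smul_eq_mul]
  rfl

lemma S_orbit (u : U) : S U (((u : (ZMod N)ˣ) : ZMod N) * k) = S U k := by
  unfold S
  refine Fintype.sum_equiv (Equiv.mulRight u) _ _ fun v => ?_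
  have : ((Equiv.mulRight u v : U) : (ZMod N)ˣ) = (v : (ZMod N)ˣ) * u := rfl
  rw [this, Units.val_mul, mul_assoc]

/-- the cyclic group generated by `k`. -/
noncomputable instance : Fintype (AddSubgroup.zmultiples k) := Fintype.ofFinite _

lemma second_moment : ∑ z : AddSubgroup.zmultiples k, ‖S U z‖ ^ 2 ≤
    (addOrderOf k : ℝ) * (Fintype.card U * st U k) := by
  classical
  have h1 : ((∑ z : AddSubgroup.zmultiples k, ‖S U z‖ ^ 2 : ℝ) : ℂ) =
      ∑ u : U, ∑ u' : U, ∑ z : AddSubgroup.zmultiples k,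
        ZMod.stdAddChar ((((u : (ZMod N)ˣ) : ZMod N) - ((u' : (ZMod N)ˣ) : ZMod N)) *
          (z : ZMod N)) := by
    push_cast
    have h2 : ∀ z : AddSubgroup.zmultiples k, ((‖S U z‖ : ℂ) ^ 2) =
        ∑ u : U, ∑ u' : U, ZMod.stdAddChar ((((u : (ZMod N)ˣ) : ZMod N) -
          ((u' : (ZMod N)ˣ) : ZMod N)) * (z : ZMod N)) := by
      intro z
      rw [← Complex.mul_conj']
      unfold S
      rw [map_sum, Finset.sum_mul_sum]
      refine Finset.sum_congr rfl fun u _ => Finset.sum_congr rfl fun u' _ => ?_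
      rw [sub_mul, sub_eq_add_neg, AddChar.map_add_eq_mul, AddChar.map_neg_eq_conj]
    rw [Finset.sum_congr rfl fun z _ => h2 z, Finset.sum_comm]
    refine Finset.sum_congr rfl fun u _ => ?_
    rw [Finset.sum_comm]
  have h3 : ∀ u u' : U, ∑ z : AddSubgroup.zmultiples k,
        (ZMod.stdAddChar ((((u : (ZMod N)ˣ) : ZMod N) - ((u' : (ZMod N)ˣ) : ZMod N)) *
          (z : ZMod N)) : ℂ) =
        if ((u' : (ZMod N)ˣ) : ZMod N) * k = ((u : (ZMod N)ˣ) : ZMod N) * k then
          (addOrderOf k : ℂ) else 0 := by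
    intro u u'
    set χ : AddChar (AddSubgroup.zmultiples k) ℂ :=
      ((ZMod.stdAddChar (N := N)).mulShift
        (((u : (ZMod N)ˣ) : ZMod N) - ((u' : (ZMod N)ˣ) : ZMod N))).compAddMonoidHom
        (AddSubgroup.zmultiples k).subtype with hχ
    have h4 : ∀ z : AddSubgroup.zmultiples k, ZMod.stdAddChar ((((u : (ZMod N)ˣ) : ZMod N) -
        ((u' : (ZMod N)ˣ) : ZMod N)) * (z : ZMod N)) = χ z := fun z => rfl
    rw [Finset.sum_congr rfl fun z _ => h4 z, AddChar.sum_eq_ite]
    have hcard : Fintype.card (AddSubgroup.zmultiples k) = addOrderOf k := by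
      rw [← Nat.card_eq_fintype_card, Nat.card_zmultiples]
    rw [hcard]
    have hiff : χ = 0 ↔ ((u' : (ZMod N)ˣ) : ZMod N) * k = ((u : (ZMod N)ˣ) : ZMod N) * k := by
      constructor
      · intro h
        have h5 : χ ⟨k, AddSubgroup.mem_zmultiples k⟩ = 1 := by rw [h]; rfl
        rw [← h4] at h5
        have h6 : (ZMod.stdAddChar ((((u : (ZMod N)ˣ) : ZMod N) -
            ((u' : (ZMod N)ˣ) : ZMod N)) * k) : ℂ) = ZMod.stdAddChar (0 : ZMod N) := by
          rw [AddChar.map_zero_eq_one]; exact h5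
        have h7 := ZMod.injective_stdAddChar h6
        rw [sub_mul, sub_eq_zero] at h7
        exact h7.symm
      · intro h
        ext z
        rw [← h4]
        obtain ⟨z, hz⟩ := z
        obtain ⟨j, rfl⟩ := AddSubgroup.mem_zmultiples_iff.mp hz
        have h5 : (((u : (ZMod N)ˣ) : ZMod N) - ((u' : (ZMod N)ˣ) : ZMod N)) * (j • k) = 0 := by
          rw [mul_smul_comm, sub_mul, h, sub_self, smul_zero]
        show ZMod.stdAddChar ((((u : (ZMod N)ˣ) : ZMod N) - ((u' : (ZMod N)ˣ) : ZMod N)) *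
          (j • k)) = (0 : AddChar (AddSubgroup.zmultiples k) ℂ) _
        rw [h5, AddChar.map_zero_eq_one]; rfl
    by_cases h : χ = 0
    · rw [if_pos h, if_pos (hiff.mp h)]
    · rw [if_neg h, if_neg (fun h' => h (hiff.mpr h'))]
  have h8 : ((∑ z : AddSubgroup.zmultiples k, ‖S U z‖ ^ 2 : ℝ) : ℂ) =
      (((addOrderOf k : ℝ) * (Fintype.card U * st U k) : ℝ) : ℂ) := by
    rw [h1]
    rw [Finset.sum_congr rfl fun u _ => Finset.sum_congr rfl fun u' _ => h3 u u']
    have h9 : ∀ u : U, ∑ u' : U, (if ((u' : (ZMod N)ˣ) : ZMod N) * k =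
        ((u : (ZMod N)ˣ) : ZMod N) * k then (addOrderOf k : ℂ) else 0) =
        (addOrderOf k : ℂ) * st U k := by
      intro u
      rw [← Finset.sum_filter, Finset.sum_const, nsmul_eq_mul, mul_comm]
      congr 2
      exact card_fiber U k u
    rw [Finset.sum_congr rfl fun u _ => h9 u, Finset.sum_const, nsmul_eq_mul, Finset.card_univ]
    push_cast
    ring
  exact le_of_eq (by exact_mod_cast h8)

lemma orbit_le : ((Orb U k).card : ℝ) * ‖S U k‖ ^ 2 ≤
    (addOrderOf k : ℝ) * (Fintype.card U * st U k) := by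
  classical
  refine le_trans ?_ (second_moment U k)
  have hO : ∀ z ∈ Orb U k, z ∈ AddSubgroup.zmultiples k := by
    intro z hz
    obtain ⟨u, -, rfl⟩ := Finset.mem_image.mp hz
    rw [AddSubgroup.mem_zmultiples_iff]
    refine ⟨(((u : (ZMod N)ˣ) : ZMod N).val : ℤ), ?_⟩
    rw [zsmul_eq_mul]
    congr 1
    simp
  have h1 : ((Orb U k).card : ℝ) * ‖S U k‖ ^ 2 = ∑ z ∈ Orb U k, ‖S U z‖ ^ 2 := by
    rw [Finset.sum_congr rfl (g := fun _ => ‖S U k‖ ^ 2), Finset.sum_const, nsmul_eq_mul]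
    intro z hz
    obtain ⟨u, -, rfl⟩ := Finset.mem_image.mp hz
    rw [S_orbit]
  rw [h1]
  have h2 : ∑ z : AddSubgroup.zmultiples k, ‖S U z‖ ^ 2 =
      ∑ z ∈ Finset.univ.map (Function.Embedding.subtype (· ∈ AddSubgroup.zmultiples k)),
        ‖S U z‖ ^ 2 := by
    rw [Finset.sum_map]; rfl
  rw [h2]
  refine Finset.sum_le_sum_of_subset_of_nonneg ?_ fun _ _ _ => by positivity
  intro z hz
  simp only [Finset.mem_map, Finset.mem_univ, true_and]
  exact ⟨⟨z, hO z hz⟩, rfl⟩

end orbit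

end Pool.Agent.W432.TC
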