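import Pool.Agent.W432.PC.Final

set_option autoImplicit false

open Polynomial Pool.Agent.W432.PC

namespace Pool.Agent.W432.TC

lemma wt_nonneg (a : ℤ) (q : ℚ) : 0 ≤ wt a q := by
  unfold wt; split_ifs
  · norm_num
  · exact Int.fract_nonneg _

lemma wt_le_one (a : ℤ) (q : ℚ) : wt a q ≤ 1 := by
  unfold wt; split_ifs
  · norm_num
  · exact (Int.fract_lt_one _).le

lemma wt_eq (a : ℤ) (q : ℚ) : ∃ e : ℤ, (a : ℚ) * q = wt a q + e := by
  unfold wt
  split_ifs with h
  · obtain ⟨z, rfl⟩ : ∃ z : ℤ, (z : ℚ) = q := ⟨q.num, (Rat.den_eq_one_iff q).mp h.2⟩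
    exact ⟨a * z - 1, by push_cast; ring⟩
  · exact ⟨⌊(a : ℚ) * q⌋, by rw [add_comm]; exact (Int.floor_add_fract _).symm⟩

lemma win_lower {r : ℕ} {t : Fin r → ℝ} (mono : ∀ l l', l ≤ l' → t l ≤ t l')
    (win : ∀ l l', t l ≤ t l' + 1) {v : ℝ} {q : ℤ} {κ : Fin r}
    (h : ∑ l, ⌈v - t l⌉ = q * r + ((κ : ℕ) : ℤ)) : v ≤ q + t κ := by
  by_contra hlt
  push Not at hlt
  have h1 : ∑ l : Fin r, (q + if l ≤ κ then 1 else 0) ≤ ∑ l, ⌈v - t l⌉ := by
    refine Finset.sum_le_sum fun l _ => ?_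
    split_ifs with hl
    · have h2 := mono l κ hl
      have h3 : (q : ℝ) < v - t l := by linarith
      exact Int.lt_ceil.mpr h3
    · have h2 := win l κ
      have h3 : ((q - 1 : ℤ) : ℝ) < v - t l := by push_cast; linarith
      have h4 := Int.lt_ceil.mpr h3
      omega
  rw [Finset.sum_add_distrib, Finset.sum_const, Finset.card_univ, Fintype.card_fin,
    Finset.sum_boole] at h1
  have h5 : (Finset.univ.filter fun l : Fin r => l ≤ κ).card = κ + 1 := by
    have : (Finset.univ.filter fun l : Fin r => l ≤ κ) = Finset.Iic κ := by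
      ext l; simp
    rw [this, Fin.card_Iic]
  rw [h5, h] at h1
  simp only [nsmul_eq_mul] at h1
  push_cast at h1
  linarith

lemma win_upper {r : ℕ} {u : Fin r → ℝ} (mono : ∀ l l', l ≤ l' → u l ≤ u l')
    (win : ∀ l l', u l ≤ u l' + 1) {w : ℝ} {q : ℤ} {s : Fin r}
    (h : q * r + ((s : ℕ) : ℤ) < ∑ l, (⌊w - u l⌋ + 1)) : q + u s ≤ w := by
  by_contra hlt
  push Not at hlt
  have h1 : ∑ l, (⌊w - u l⌋ + 1) ≤ ∑ l : Fin r, (q + if l < s then 1 else 0) := by
    refine Finset.sum_le_sum fun l _ => ?_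
    split_ifs with hl
    · have h2 := win s l
      have h3 : w - u l < ((q + 1 : ℤ) : ℝ) := by push_cast; linarith
      have h4 := Int.floor_lt.mpr h3
      omega
    · have h2 := mono s l (not_lt.mp hl)
      have h3 : w - u l < (q : ℝ) := by linarith
      have h4 := Int.floor_lt.mpr h3
      omega
  have h5 : (Finset.univ.filter fun l : Fin r => l < s).card = s := by
    have : (Finset.univ.filter fun l : Fin r => l < s) = Finset.Iio s := by
      ext l; simp
    rw [this, Fin.card_Iio]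
  have h6 : ∑ l : Fin r, (q + if l < s then (1 : ℤ) else 0) = r * q + ((s : ℕ) : ℤ) := by
    rw [Finset.sum_add_distrib, Finset.sum_const, Finset.card_univ, Fintype.card_fin,
      Finset.sum_boole, h5]
    simp
  rw [h6] at h1
  linarith

/-- The least number `≥ v` congruent to `x` modulo one. -/
noncomputable def nextGe (v x : ℝ) : ℝ := ⌈v - x⌉ + x

/-- The least number `> w` congruent to `x` modulo one. -/
noncomputable def nextGt (w x : ℝ) : ℝ := ⌊w - x⌋ + 1 + x

lemma nextGe_add_int (v x : ℝ) (e : ℤ) : nextGe v (x + e) = nextGe v x := by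
  unfold nextGe
  rw [show v - (x + e) = v - x - e by ring, Int.ceil_sub_intCast]
  push_cast; ring

lemma nextGt_add_int (w x : ℝ) (e : ℤ) : nextGt w (x + e) = nextGt w x := by
  unfold nextGt
  rw [show w - (x + e) = w - x - e by ring, Int.floor_sub_intCast]
  push_cast; ring

/-- A sorting permutation. -/
lemma exists_sort {r : ℕ} (a : ℤ) (f : Fin r → ℚ) :
    ∃ σ : Equiv.Perm (Fin r), ∀ l l', l ≤ l' → lexLE a (f (σ l)) (f (σ l')) := by
  let g : Fin r → ℚ ×ₗ ℚ := fun l => toLex (wt a (f l), f l)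
  refine ⟨Tuple.sort g, fun l l' h => ?_⟩
  have h1 := Tuple.monotone_sort g h
  simp only [Function.comp, g] at h1
  rw [Prod.Lex.toLex_le_toLex] at h1
  exact h1

universe u

variable {R : Type u} [CommRing R] [IsDomain R] [CharZero R] {n r : ℕ}

omit [CharZero R] in
lemma hasExponents_perm {A : Matrix (Fin r) (Fin r) R} {lam : Fin r → ℚ}
    (h : HasExponents A lam) (σ : Equiv.Perm (Fin r)) : HasExponents A (fun l => lam (σ l)) := by
  unfold HasExponents at h ⊢
  rw [h]
  exact (Equiv.prod_comp σ _).symm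

/-- The Weyl inequalities (rank one form, for the system or its dual) in terms of next lifts:
a violation forces nonzero `p`-curvature at all closed points of large residue characteristic `p`
with `a p = -1` modulo `N`. -/
theorem weyl_next (α : Fin n → R)
    (hα : ∀ i j, i ≠ j → IsUnit (α i - α j))
    (A A' : Fin n → Matrix (Fin r) (Fin r) R)
    (hA' : A' = A ∨ A' = fun j => -(A j).transpose)
    (lam : Fin n → Fin r → ℚ) (phi : Fin r → ℚ)
    (hlam : ∀ j, HasExponents (A' j) (lam j)) (hphi : HasExponents (∑ j, A' j) phi)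
    (N : ℕ) (hN : 0 < N) (hNlam : ∀ j l, ∃ m : ℤ, (N : ℚ) * lam j l = m)
    (hNphi : ∀ l, ∃ m : ℤ, (N : ℚ) * phi l = m) (a : ℤ)
    (v : Fin n → ℝ) (w : ℝ) (hvw : w < ∑ j, v j)
    (hlt : ∑ j, ∑ l, nextGe (v j) ((a : ℝ) * lam j l) < ∑ l, nextGt w ((a : ℝ) * phi l)) :
    ∃ P₀ : ℕ, ∀ p : ℕ, p.Prime → P₀ < p → (N : ℤ) ∣ a * p + 1 →
      ∀ (𝔪 : Ideal R) [𝔪.IsMaximal], (p : R) ∈ 𝔪 → ¬ PCurvZeroAt α A 𝔪 := by
  classical
  -- rank positive
  have hr : 0 < r := by
    rcases Nat.eq_zero_or_pos r with rfl | h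
    · simp at hlt
    · exact h
  choose σ hσ using fun j => exists_sort a (lam j)
  obtain ⟨τ, hτ⟩ := exists_sort a phi
  set t : Fin n → Fin r → ℚ := fun j l => wt a (lam j (σ j l)) with ht
  set u : Fin r → ℚ := fun l => wt a (phi (τ l)) with hu
  have hup : ∀ j, ∑ l, nextGe (v j) ((a : ℝ) * lam j l) = ∑ l, nextGe (v j) (t j l) := by
    intro j
    rw [← Equiv.sum_comp (σ j)]
    refine Finset.sum_congr rfl fun l _ => ?_
    obtain ⟨e, he⟩ := wt_eq a (lam j (σ j l))
    have he' : (a : ℝ) * lam j (σ j l) = (t j l : ℝ) + e := by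
      have := congrArg (fun q : ℚ => (q : ℝ)) he
      push_cast at this
      exact this
    rw [he', nextGe_add_int]
  have hsup : ∑ l, nextGt w ((a : ℝ) * phi l) = ∑ l, nextGt w (u l) := by
    rw [← Equiv.sum_comp τ]
    refine Finset.sum_congr rfl fun l _ => ?_
    obtain ⟨e, he⟩ := wt_eq a (phi (τ l))
    have he' : (a : ℝ) * phi (τ l) = (u l : ℝ) + e := by
      have := congrArg (fun q : ℚ => (q : ℝ)) he
      push_cast at this
      exact this
    rw [he', nextGt_add_int]
  simp only [hup, hsup] at hlt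
  -- the trace relation
  have htr : ∑ j, ∑ l, lam j l = ∑ l, phi l := by
    have h1 := HasExponents.trace hphi
    have h2 := fun j => HasExponents.trace (hlam j)
    have h3 : (∑ j, A' j).trace = ∑ j, (A' j).trace := by
      rw [Matrix.trace_sum]
    have := charZero_fraction (R := R)
    rw [h3, map_sum, Finset.sum_congr rfl fun j _ => h2 j] at h1
    have h4 : ((∑ j, ∑ l, lam j l : ℚ) : FractionRing R) = ((∑ l, phi l : ℚ) : FractionRing R) := by
      push_cast
      first
        | exact h1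
        | (push_cast at h1; exact h1)
    exact_mod_cast h4
  obtain ⟨D, hD⟩ : ∃ D : ℤ, ∑ j, ∑ l, t j l - ∑ l, u l = D := by
    choose e he using fun j l => wt_eq a (lam j (σ j l))
    choose e' he' using fun l => wt_eq a (phi (τ l))
    refine ⟨-(∑ j, ∑ l, e j l) + ∑ l, e' l, ?_⟩
    have h1 : ∀ j l, t j l = a * lam j (σ j l) - e j l := fun j l => by rw [he j l]; simp [ht]
    have h2 : ∀ l, u l = a * phi (τ l) - e' l := fun l => by rw [he' l]; simp [hu]
    simp only [h1, h2, Finset.sum_sub_distrib, ← Finset.mul_sum]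
    have h3 : ∀ j, ∑ l, lam j (σ j l) = ∑ l, lam j l := fun j => Equiv.sum_comp (σ j) _
    have h4 : ∑ l, phi (τ l) = ∑ l, phi l := Equiv.sum_comp τ _
    rw [Finset.sum_congr rfl fun j _ => h3 j, h4, htr]
    push_cast
    ring
  -- the integers
  set K : Fin n → ℤ := fun j => ∑ l, ⌈v j - t j l⌉ with hK
  set L : ℤ := ∑ l, (⌊w - u l⌋ + 1) with hL
  have hKL : ∑ j, K j + D < L := by
    have h1 : ∑ j, ∑ l, nextGe (v j) (t j l) = ((∑ j, K j : ℤ) : ℝ) + ∑ j, ∑ l, (t j l : ℝ) := by
      simp only [hK, nextGe]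
      push_cast
      simp only [Finset.sum_add_distrib]
    have h2 : ∑ l, nextGt w (u l) = (L : ℝ) + ∑ l, (u l : ℝ) := by
      simp only [hL, nextGt]
      push_cast
      simp only [Finset.sum_add_distrib]
    have h3 : (∑ j, ∑ l, (t j l : ℝ)) - ∑ l, (u l : ℝ) = D := by
      have := congrArg (fun q : ℚ => (q : ℝ)) hD
      push_cast at this
      exact this
    rw [h1, h2] at hlt
    have h4 : ((∑ j, K j + D : ℤ) : ℝ) < (L : ℝ) := by push_cast; push_cast at hlt; linarith
    exact_mod_cast h4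
  have hr' : (0 : ℤ) < r := by exact_mod_cast hr
  have hdm : ∀ k : ℤ, k = (k / r) * r + (((k % r).toNat : ℕ) : ℤ) ∧ (k % r).toNat < r := by
    intro k
    have h1 := Int.emod_nonneg k hr'.ne'
    have h2 := Int.emod_lt_of_pos k hr'
    have h3 := Int.mul_ediv_add_emod k r
    constructor
    · rw [Int.toNat_of_nonneg h1]; linarith
    · omega
  let κ : Fin n → Fin r := fun j => ⟨(K j % r).toNat, (hdm _).2⟩
  let k : ℤ := ∑ j, K j + D
  let s : Fin r := ⟨(k % r).toNat, (hdm _).2⟩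
  have hmono : ∀ j l l', l ≤ l' → (t j l : ℝ) ≤ t j l' := by
    intro j l l' h
    have h1 : t j l ≤ t j l' := by
      rcases hσ j l l' h with h2 | h2
      · exact h2.le
      · exact h2.1.le
    exact_mod_cast h1
  have hmono' : ∀ l l', l ≤ l' → (u l : ℝ) ≤ u l' := by
    intro l l' h
    have h1 : u l ≤ u l' := by
      rcases hτ l l' h with h2 | h2
      · exact h2.le
      · exact h2.1.le
    exact_mod_cast h1
  have hwin : ∀ j l l', (t j l : ℝ) ≤ t j l' + 1 := by
    intro j l l'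
    have h1 : t j l ≤ t j l' + 1 := by
      have h2 := wt_le_one a (lam j (σ j l))
      have h3 := wt_nonneg a (lam j (σ j l'))
      simp only [ht]; linarith
    exact_mod_cast h1
  have hwin' : ∀ l l', (u l : ℝ) ≤ u l' + 1 := by
    intro l l'
    have h1 : u l ≤ u l' + 1 := by
      have h2 := wt_le_one a (phi (τ l))
      have h3 := wt_nonneg a (phi (τ l'))
      simp only [hu]; linarith
    exact_mod_cast h1
  have hv : ∀ j, v j ≤ ((K j / r : ℤ) : ℝ) + t j (κ j) := fun j =>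
    win_lower (hmono j) (hwin j) (v := v j) (q := K j / r) (κ := κ j) (hdm (K j)).1
  have hw : ((k / r : ℤ) : ℝ) + u s ≤ w := by
    refine win_upper hmono' hwin' (w := w) (q := k / r) (s := s) ?_
    have h1 := (hdm k).1
    show k / r * r + (((k % r).toNat : ℕ) : ℤ) < L
    rw [← h1]
    exact hKL
  set q : ℤ := k / r - ∑ j, K j / r with hqdef
  have hlt2 : (q : ℝ) + u s < ∑ j, (t j (κ j) : ℝ) := by
    have h1 : ∑ j, v j ≤ ∑ j, (((K j / r : ℤ) : ℝ) + t j (κ j)) :=
      Finset.sum_le_sum fun j _ => hv j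
    rw [Finset.sum_add_distrib] at h1
    rw [hqdef]
    push_cast
    linarith
  have hlt3 : (q : ℚ) + wt a (phi (τ s)) < ∑ j, wt a (lam j (σ j (κ j))) := by
    have : ((((q : ℚ) + u s : ℚ)) : ℝ) < ((∑ j, t j (κ j) : ℚ) : ℝ) := by
      push_cast; exact hlt2
    exact_mod_cast this
  have hq : ∑ j, ∑ l, wt a (lam j (σ j l)) - ∑ l, wt a (phi (τ l)) +
      ∑ j, ((κ j : ℕ) : ℚ) = q * r + (s : ℕ) := by
    rw [hD]
    have h1 : ∀ j, ((κ j : ℕ) : ℤ) = K j - K j / r * r := fun j => by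
      have := (hdm (K j)).1
      show (((K j % r).toNat : ℕ) : ℤ) = _
      linarith
    have h2 : ((s : ℕ) : ℤ) = k - k / r * r := by
      have := (hdm k).1
      show (((k % r).toNat : ℕ) : ℤ) = _
      linarith
    have h3 : (D : ℤ) + ∑ j, ((κ j : ℕ) : ℤ) = q * r + ((s : ℕ) : ℤ) := by
      rw [Finset.sum_congr rfl fun j _ => h1 j, h2, hqdef, Finset.sum_sub_distrib,
        ← Finset.sum_mul]
      simp only [k]
      ring
    exact_mod_cast h3
  have hmain := main α hα A A' hA' (fun j l => lam j (σ j l)) (fun l => phi (τ l))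
    (fun j => hasExponents_perm (hlam j) (σ j)) (hasExponents_perm hphi τ) N hN
    (fun j l => hNlam j (σ j l)) (fun l => hNphi (τ l)) a hσ hτ κ s q hq hlt3.le
    (fun h => absurd h hlt3.ne)
  obtain ⟨g, hg, hg1, P₀, hP⟩ := hmain
  have hg2 := hg1 hlt3
  refine ⟨P₀, fun p hp hpP hap 𝔪 h𝔪 hpm => hP p hp hpP hap 𝔪 hpm ?_⟩
  rw [hg2]
  exact (Ideal.ne_top_iff_one 𝔪).mp h𝔪.ne_top

end Pool.Agent.W432.TC
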